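import Mathlib

/-!
# Counting points in orbit balls

`s`, `t`, `t'` are permutations of `X` with `s² = 1`, `t t' = 1` and `t s t = s t' s` (the
relations of the modular group).  The number of points that can be reached from `p` in at most
`n` steps is at most `8 * fib (n + 2)`.
-/

namespace Pool.Agent.H46.ABCF

variable {X : Type*} [DecidableEq X]

/-- points reached by canonical words of length at most `n` whose last letter is `t` -/
def PP (s : X → X) (p : X) : ℕ → (X → X) → (X → X) → Finset X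
  | 0, _, _ => ∅
  | 1, t, _ => ({p, s p} : Finset X).image t
  | (n + 2), t, t' => ({p, s p} : Finset X).image t ∪ (PP s p (n + 1) t t').image t ∪
      (PP s p n t' t).image (fun x => t (s x))

theorem card_PP (s : X → X) (p : X) (n : ℕ) :
    ∀ t t' : X → X, (PP s p n t t').card + 2 ≤ 2 * Nat.fib (n + 2) ∧
      (PP s p (n + 1) t t').card + 2 ≤ 2 * Nat.fib (n + 3) := by
  have hZ : ∀ t : X → X, ((({p, s p} : Finset X).image t).card ≤ 2) := fun t =>
    Finset.card_image_le.trans Finset.card_le_two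
  induction n with
  | zero =>
    intro t t'
    refine ⟨by simp [PP], ?_⟩
    have := hZ t
    simp only [PP]
    have h3 : Nat.fib (0 + 3) = 2 := rfl
    rw [h3]; omega
  | succ n ih =>
    intro t t'
    refine ⟨(ih t t').2, ?_⟩
    have h1 := (ih t t').2
    have h2 := (ih t' t).1
    have h3 : (PP s p (n + 1 + 1) t t').card ≤ 2 + (PP s p (n + 1) t t').card +
        (PP s p n t' t).card := by
      have e : PP s p (n + 1 + 1) t t' = ({p, s p} : Finset X).image t ∪
        (PP s p (n + 1) t t').image t ∪ (PP s p n t' t).image (fun x => t (s x)) := rfl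
      rw [e]
      refine (Finset.card_union_le _ _).trans ?_
      refine add_le_add ((Finset.card_union_le _ _).trans (add_le_add (hZ t) ?_)) ?_
      · exact Finset.card_image_le
      · exact Finset.card_image_le
    have h4 : Nat.fib (n + 1 + 3) = Nat.fib (n + 2) + Nat.fib (n + 3) := by
      have : n + 1 + 3 = (n + 2) + 2 := by ring
      rw [this, Nat.fib_add_two]
    rw [h4]
    omega

theorem PP_mem_iff (s : X → X) (p : X) (n : ℕ) (t t' : X → X) (x : X) :
    x ∈ PP s p (n + 1) t t' ↔ ∃ w, t w = x ∧ (w = p ∨ w = s p ∨ w ∈ PP s p n t t' ∨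
      ∃ m, m ∈ PP s p (n - 1) t' t ∧ w = s m) := by
  rcases n with _ | n
  · simp only [PP, Finset.mem_image, Finset.mem_insert, Finset.mem_singleton]
    constructor
    · rintro ⟨w, hw, rfl⟩
      rcases hw with rfl | rfl
      · exact ⟨_, rfl, Or.inl rfl⟩
      · exact ⟨_, rfl, Or.inr (Or.inl rfl)⟩
    · rintro ⟨w, rfl, hw⟩
      rcases hw with rfl | rfl | hw | ⟨m, hm, rfl⟩
      · exact ⟨_, Or.inl rfl, rfl⟩
      · exact ⟨_, Or.inr rfl, rfl⟩
      · simp at hw
      · simp [PP] at hm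
  · have e : PP s p (n + 1 + 1) t t' = ({p, s p} : Finset X).image t ∪
        (PP s p (n + 1) t t').image t ∪ (PP s p n t' t).image (fun x => t (s x)) := rfl
    rw [e]
    simp only [Finset.mem_union, Finset.mem_image, Finset.mem_insert, Finset.mem_singleton,
      Nat.add_sub_cancel]
    constructor
    · rintro ((⟨w, hw, rfl⟩ | ⟨w, hw, rfl⟩) | ⟨m, hm, rfl⟩)
      · rcases hw with rfl | rfl
        · exact ⟨_, rfl, Or.inl rfl⟩
        · exact ⟨_, rfl, Or.inr (Or.inl rfl)⟩
      · exact ⟨_, rfl, Or.inr (Or.inr (Or.inl hw))⟩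
      · exact ⟨_, rfl, Or.inr (Or.inr (Or.inr ⟨m, hm, rfl⟩))⟩
    · rintro ⟨w, rfl, hw⟩
      rcases hw with rfl | rfl | hw | ⟨m, hm, rfl⟩
      · exact Or.inl (Or.inl ⟨_, Or.inl rfl, rfl⟩)
      · exact Or.inl (Or.inl ⟨_, Or.inr rfl, rfl⟩)
      · exact Or.inl (Or.inr ⟨_, hw, rfl⟩)
      · exact Or.inr ⟨m, hm, rfl⟩

theorem PP_mono_succ (s : X → X) (p : X) (n : ℕ) :
    ∀ t t' : X → X, PP s p n t t' ⊆ PP s p (n + 1) t t' := by
  induction n using Nat.strong_induction_on with
  | _ n ih =>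
    intro t t' x hx
    rcases n with _ | n
    · simp [PP] at hx
    · rw [PP_mem_iff] at hx ⊢
      obtain ⟨w, hw, h⟩ := hx
      refine ⟨w, hw, ?_⟩
      rcases h with h | h | h | ⟨m, hm, h⟩
      · exact Or.inl h
      · exact Or.inr (Or.inl h)
      · exact Or.inr (Or.inr (Or.inl (ih n (by omega) t t' h)))
      · refine Or.inr (Or.inr (Or.inr ⟨m, ?_, h⟩))
        rcases n with _ | n
        · simp [PP] at hm
        · have : n + 1 - 1 = n := by omega
          rw [this] at hm
          have := ih n (by omega) t' t hm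
          simpa using this

theorem PP_mono (s : X → X) (p : X) (t t' : X → X) {m n : ℕ} (h : m ≤ n) :
    PP s p m t t' ⊆ PP s p n t t' := by
  induction h with
  | refl => exact fun _ h => h
  | step _ ih => exact fun x hx => PP_mono_succ s p _ t t' (ih hx)

/-- all points reached by canonical words of length at most `n` -/
def FF (s t t' : X → X) (p : X) (n : ℕ) : Finset X :=
  ({p, s p} : Finset X) ∪ PP s p n t t' ∪ PP s p n t' t ∪ (PP s p (n - 1) t t').image s ∪
    (PP s p (n - 1) t' t).image s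

theorem mem_FF (s t t' : X → X) (p : X) (n : ℕ) (x : X) : x ∈ FF s t t' p n ↔
    x = p ∨ x = s p ∨ x ∈ PP s p n t t' ∨ x ∈ PP s p n t' t ∨
      (∃ m, m ∈ PP s p (n - 1) t t' ∧ x = s m) ∨ (∃ m, m ∈ PP s p (n - 1) t' t ∧ x = s m) := by
  simp only [FF, Finset.mem_union, Finset.mem_insert, Finset.mem_singleton, Finset.mem_image]
  constructor
  · rintro ((((h | h) | h) | ⟨m, hm, rfl⟩) | ⟨m, hm, rfl⟩)
    · rcases h with h | h
      · exact Or.inl h
      · exact Or.inr (Or.inl h)
    · exact Or.inr (Or.inr (Or.inl h))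
    · exact Or.inr (Or.inr (Or.inr (Or.inl h)))
    · exact Or.inr (Or.inr (Or.inr (Or.inr (Or.inl ⟨m, hm, rfl⟩))))
    · exact Or.inr (Or.inr (Or.inr (Or.inr (Or.inr ⟨m, hm, rfl⟩))))
  · rintro (h | h | h | h | ⟨m, hm, rfl⟩ | ⟨m, hm, rfl⟩)
    · exact Or.inl (Or.inl (Or.inl (Or.inl (Or.inl h))))
    · exact Or.inl (Or.inl (Or.inl (Or.inl (Or.inr h))))
    · exact Or.inl (Or.inl (Or.inl (Or.inr h)))
    · exact Or.inl (Or.inl (Or.inr h))
    · exact Or.inl (Or.inr ⟨m, hm, rfl⟩)
    · exact Or.inr ⟨m, hm, rfl⟩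

theorem FF_symm (s t t' : X → X) (p : X) (n : ℕ) (x : X) :
    x ∈ FF s t t' p n ↔ x ∈ FF s t' t p n := by
  rw [mem_FF, mem_FF]
  constructor
  · rintro (h | h | h | h | h | h)
    · exact Or.inl h
    · exact Or.inr (Or.inl h)
    · exact Or.inr (Or.inr (Or.inr (Or.inl h)))
    · exact Or.inr (Or.inr (Or.inl h))
    · exact Or.inr (Or.inr (Or.inr (Or.inr (Or.inr h))))
    · exact Or.inr (Or.inr (Or.inr (Or.inr (Or.inl h))))
  · rintro (h | h | h | h | h | h)
    · exact Or.inl h
    · exact Or.inr (Or.inl h)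
    · exact Or.inr (Or.inr (Or.inr (Or.inl h)))
    · exact Or.inr (Or.inr (Or.inl h))
    · exact Or.inr (Or.inr (Or.inr (Or.inr (Or.inr h))))
    · exact Or.inr (Or.inr (Or.inr (Or.inr (Or.inl h))))

theorem FF_mono (s t t' : X → X) (p : X) {m n : ℕ} (h : m ≤ n) : FF s t t' p m ⊆ FF s t t' p n := by
  intro x hx
  rw [mem_FF] at hx ⊢
  rcases hx with h1 | h1 | h1 | h1 | ⟨w, hw, h1⟩ | ⟨w, hw, h1⟩
  · exact Or.inl h1
  · exact Or.inr (Or.inl h1)
  · exact Or.inr (Or.inr (Or.inl (PP_mono s p t t' h h1)))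
  · exact Or.inr (Or.inr (Or.inr (Or.inl (PP_mono s p t' t h h1))))
  · exact Or.inr (Or.inr (Or.inr (Or.inr (Or.inl
      ⟨w, PP_mono s p t t' (Nat.sub_le_sub_right h 1) hw, h1⟩))))
  · exact Or.inr (Or.inr (Or.inr (Or.inr (Or.inr
      ⟨w, PP_mono s p t' t (Nat.sub_le_sub_right h 1) hw, h1⟩))))

theorem card_FF (s t t' : X → X) (p : X) (n : ℕ) :
    (FF s t t' p n).card ≤ 8 * Nat.fib (n + 2) := by
  have h1 := (card_PP s p n t t').1
  have h2 := (card_PP s p n t' t).1
  have h3 : (PP s p (n - 1) t t').card ≤ (PP s p n t t').card :=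
    Finset.card_le_card (PP_mono s p t t' (Nat.sub_le n 1))
  have h4 : (PP s p (n - 1) t' t).card ≤ (PP s p n t' t).card :=
    Finset.card_le_card (PP_mono s p t' t (Nat.sub_le n 1))
  have h5 : (FF s t t' p n).card ≤ 2 + (PP s p n t t').card + (PP s p n t' t).card +
      (PP s p (n - 1) t t').card + (PP s p (n - 1) t' t).card := by
    unfold FF
    refine (Finset.card_union_le _ _).trans (add_le_add ?_ Finset.card_image_le)
    refine (Finset.card_union_le _ _).trans (add_le_add ?_ Finset.card_image_le)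
    refine (Finset.card_union_le _ _).trans (add_le_add ?_ le_rfl)
    exact (Finset.card_union_le _ _).trans (add_le_add Finset.card_le_two le_rfl)
  omega

/-- closure under `s` -/
theorem s_mem_FF (s t t' : X → X) (hss : ∀ x, s (s x) = x) (p : X) (n : ℕ) (x : X)
    (hx : x ∈ FF s t t' p n) : s x ∈ FF s t t' p (n + 1) := by
  rw [mem_FF] at hx
  rw [mem_FF]
  rcases hx with rfl | rfl | h | h | ⟨m, hm, rfl⟩ | ⟨m, hm, rfl⟩
  · exact Or.inr (Or.inl rfl)
  · left; exact hss _
  · right; right; right; right; left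
    exact ⟨x, by simpa using h, rfl⟩
  · right; right; right; right; right
    exact ⟨x, by simpa using h, rfl⟩
  · right; right; left
    rw [hss]
    exact PP_mono s p t t' (by omega) hm
  · right; right; right; left
    rw [hss]
    exact PP_mono s p t' t (by omega) hm

/-- closure under `t` -/
theorem t_mem_FF (s t t' : X → X) (hss : ∀ x, s (s x) = x) (htt' : ∀ x, t (t' x) = x)
    (hrel : ∀ x, t (s (t x)) = s (t' (s x))) (p : X) (n : ℕ) (x : X)
    (hx : x ∈ FF s t t' p n) : t x ∈ FF s t t' p (n + 1) := by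
  rw [mem_FF] at hx
  rcases hx with rfl | rfl | h | h | ⟨m, hm, rfl⟩ | ⟨m, hm, rfl⟩
  · rw [mem_FF]
    right; right; left
    rw [PP_mem_iff]
    exact ⟨x, rfl, Or.inl rfl⟩
  · rw [mem_FF]
    right; right; left
    rw [PP_mem_iff]
    exact ⟨s p, rfl, Or.inr (Or.inl rfl)⟩
  · rw [mem_FF]
    right; right; left
    rw [PP_mem_iff]
    exact ⟨x, rfl, Or.inr (Or.inr (Or.inl h))⟩
  · -- x ∈ PP n t' t: cancels
    rcases n with _ | n
    · simp [PP] at h
    rw [PP_mem_iff] at h
    obtain ⟨w, rfl, hw⟩ := h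
    rw [htt', mem_FF]
    rcases hw with h | h | h | ⟨m, hm, h⟩
    · exact Or.inl h
    · exact Or.inr (Or.inl h)
    · right; right; right; left
      exact PP_mono s p t' t (by omega) h
    · right; right; right; right; left
      exact ⟨m, PP_mono s p t t' (by omega) hm, h⟩
  · -- x = s m, m ∈ PP (n-1) t t'
    rcases n with _ | n
    · simp [PP] at hm
    rcases n with _ | n
    · simp [PP] at hm
    have e : n + 1 + 1 - 1 = n + 1 := by omega
    rw [e, PP_mem_iff] at hm
    obtain ⟨w, rfl, hw⟩ := hm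
    rw [hrel, mem_FF]
    right; right; right; right; right
    refine ⟨t' (s w), ?_, rfl⟩
    have e2 : n + 1 + 1 + 1 - 1 = (n + 1) + 1 := by omega
    rw [e2, PP_mem_iff]
    refine ⟨s w, rfl, ?_⟩
    rcases hw with rfl | rfl | h | ⟨m', hm', rfl⟩
    · exact Or.inr (Or.inl rfl)
    · left; exact hss _
    · right; right; right
      exact ⟨w, by simpa using h, rfl⟩
    · right; right; left
      rw [hss]
      exact PP_mono s p t' t (by omega) hm'
  · rw [mem_FF]
    right; right; left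
    rw [PP_mem_iff]
    exact ⟨s m, rfl, Or.inr (Or.inr (Or.inr ⟨m, hm, rfl⟩))⟩

/-- closure under `t'` -/
theorem t'_mem_FF (s t t' : X → X) (hss : ∀ x, s (s x) = x) (htt' : ∀ x, t (t' x) = x)
    (ht't : ∀ x, t' (t x) = x)
    (hrel : ∀ x, t (s (t x)) = s (t' (s x))) (p : X) (n : ℕ) (x : X)
    (hx : x ∈ FF s t t' p n) : t' x ∈ FF s t t' p (n + 1) := by
  rw [FF_symm] at hx ⊢
  apply t_mem_FF s t' t hss ht't _ p n x hx
  intro y
  obtain ⟨z, hz⟩ : ∃ z, z = t' (s (t' y)) := ⟨_, rfl⟩
  have h1 := hrel z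
  have h0 : t z = s (t' y) := by rw [hz, htt']
  rw [h0, hss, htt'] at h1
  have h2 : s y = t' (s z) := by
    have := congrArg s h1
    rwa [hss] at this
  have h3 : t (s y) = s z := by rw [h2, htt']
  rw [← hz, h3, hss]

end Pool.Agent.H46.ABCF
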