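import Mathlib

/-!
# `(a,b)`-continued fraction maps on the interval: definitions

`k x = x / (1 + |x|)` identifies `ℝ` with `(-1, 1)`, and both `1` and `-1` stand for the point
at infinity.  `fTilde e a b` is the map `k ∘ f_{a,b} ∘ k⁻¹` of `[-1, 1]`, where `e = 1` or
`e = -1` is the representative chosen for `S 0 = ∞`.
-/

namespace Pool.Agent.H46.ABCF

/-- The homeomorphism `k(x) = x / (1 + |x|)` of `ℝ` onto `(-1, 1)`. -/
noncomputable def k (x : ℝ) : ℝ := x / (1 + |x|)

/-- The inverse `y / (1 - |y|)` of `k` on `(-1, 1)`. -/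
noncomputable def kInv (y : ℝ) : ℝ := y / (1 - |y|)

/-- `k ∘ T ∘ k⁻¹` on `[-1, 1]`, where `T x = x + 1`; the points `±1` (that is `∞`) are fixed. -/
noncomputable def tTilde (y : ℝ) : ℝ := if |y| < 1 then k (kInv y + 1) else y

/-- `k ∘ T⁻¹ ∘ k⁻¹` on `[-1, 1]`; the points `±1` (that is `∞`) are fixed. -/
noncomputable def tInvTilde (y : ℝ) : ℝ := if |y| < 1 then k (kInv y - 1) else y

/-- `k ∘ S ∘ k⁻¹` on `[-1, 1]`, where `S x = -1 / x`; here `S ∞ = 0` and `S 0 = ∞` is represented
by `e`, one of the two points `1`, `-1`. -/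
noncomputable def sTilde (e y : ℝ) : ℝ :=
  if y = 0 then e else if |y| < 1 then k (-1 / kInv y) else 0

/-- The interval map `k ∘ f_{a,b} ∘ k⁻¹` of `[-1, 1]`: it is `k T k⁻¹` on `[-1, k a)`,
`k S k⁻¹` on `[k a, k b)` and `k T⁻¹ k⁻¹` on `[k b, 1]`. -/
noncomputable def fTilde (e a b y : ℝ) : ℝ :=
  if y < k a then tTilde y else if y < k b then sTilde e y else tInvTilde y

/-- `N - 1` points cut `(-1, 1)` into `N` open intervals on each of which `g` is strictly monotone
and, if `C` holds, also continuous. -/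
def HasLaps (C : Prop) (g : ℝ → ℝ) (N : ℕ) : Prop :=
  ∃ D : Finset ℝ, D.card + 1 = N ∧ (D : Set ℝ) ⊆ Set.Ioo (-1) 1 ∧
    ∀ J : Set ℝ, J.OrdConnected → J ⊆ Set.Ioo (-1) 1 \ (D : Set ℝ) →
      (StrictMonoOn g J ∨ StrictAntiOn g J) ∧ (C → ContinuousOn g J)

/-- The number of laps of `g` on `[-1, 1]`: the least number of open intervals into which
`(-1, 1)` can be cut by finitely many points so that on each of them `g` is strictly monotone
(and continuous, if `C` holds). -/
noncomputable def lapNumber (C : Prop) (g : ℝ → ℝ) : ℕ := sInf {N | HasLaps C g N}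

end Pool.Agent.H46.ABCF
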