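import Mathlib
import Pool.Agent.H46.ABCF.Defs
import Pool.Agent.H46.ABCF.Count

/-!
# Branches of the interval map
-/

namespace Pool.Agent.H46.ABCF

open Set

theorem abs_k_lt (x : ℝ) : |k x| < 1 := by
  unfold k
  have h : 0 < 1 + |x| := by positivity
  rw [abs_div, abs_of_pos h, div_lt_one h]
  linarith

theorem k_mem (x : ℝ) : k x ∈ Ioo (-1 : ℝ) 1 := abs_lt.mp (abs_k_lt x)

theorem kInv_k (x : ℝ) : kInv (k x) = x := by
  unfold kInv k
  have h : 0 < 1 + |x| := by positivity
  rw [abs_div, abs_of_pos h]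
  field_simp
  ring

theorem k_kInv {y : ℝ} (hy : |y| < 1) : k (kInv y) = y := by
  unfold kInv k
  have h : 0 < 1 - |y| := by linarith
  rw [abs_div, abs_of_pos h]
  field_simp
  ring

theorem k_strictMono : StrictMono k := by
  intro x y hxy
  unfold k
  rw [div_lt_div_iff₀ (by positivity) (by positivity)]
  rcases abs_cases x with ⟨h1, h1'⟩ | ⟨h1, h1'⟩ <;> rcases abs_cases y with ⟨h2, h2'⟩ | ⟨h2, h2'⟩ <;>
    rw [h1, h2] <;> nlinarith

theorem kInv_strictMonoOn : StrictMonoOn kInv (Ioo (-1 : ℝ) 1) := by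
  intro x hx y hy hxy
  by_contra h
  push Not at h
  have h1 := k_strictMono.monotone h
  rw [k_kInv (abs_lt.mpr hx), k_kInv (abs_lt.mpr hy)] at h1
  linarith

theorem k_zero : k 0 = 0 := by simp [k]

theorem kInv_zero : kInv 0 = 0 := by simp [kInv]

theorem k_continuous : Continuous k := by
  unfold k
  apply Continuous.div continuous_id (by fun_prop)
  intro x
  positivity

theorem kInv_continuousAt {y : ℝ} (hy : |y| < 1) : ContinuousAt kInv y := by
  unfold kInv
  apply ContinuousAt.div continuousAt_id (by fun_prop)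
  have : 0 < 1 - |y| := by linarith
  exact this.ne'

theorem kInv_lt_iff {y : ℝ} (hy : |y| < 1) (a : ℝ) : kInv y < a ↔ y < k a := by
  constructor
  · intro h
    have := k_strictMono h
    rwa [k_kInv hy] at this
  · intro h
    have := kInv_strictMonoOn (abs_lt.mp hy) (k_mem a) h
    rwa [kInv_k] at this

theorem lt_kInv_iff {y : ℝ} (hy : |y| < 1) (a : ℝ) : a < kInv y ↔ k a < y := by
  constructor
  · intro h
    have := k_strictMono h
    rwa [k_kInv hy] at this
  · intro h
    have := kInv_strictMonoOn (k_mem a) (abs_lt.mp hy) h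
    rwa [kInv_k] at this

/-- the three critical points -/
def crit (a b : ℝ) : Set ℝ := {k a, 0, k b}

theorem fT_left {e a b y : ℝ} (hy : |y| < 1) (h : y < k a) :
    fTilde e a b y = k (kInv y + 1) := by
  simp [fTilde, h, tTilde, hy]

theorem fT_mid {e a b y : ℝ} (hy : |y| < 1) (h : k a < y) (h' : y < k b) (h0 : y ≠ 0) :
    fTilde e a b y = k (-1 / kInv y) := by
  simp [fTilde, not_lt.mpr h.le, h', sTilde, hy, h0]

theorem fT_right {e a b y : ℝ} (hab : k a ≤ k b) (hy : |y| < 1) (h : k b < y) :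
    fTilde e a b y = k (kInv y - 1) := by
  simp [fTilde, not_lt.mpr h.le, not_lt.mpr (hab.trans h.le), tInvTilde, hy]

/-- two points lie in the same open branch -/
def Same (a b z z' : ℝ) : Prop :=
  (z < k a ∧ z' < k a) ∨ (k a < z ∧ k a < z' ∧ z < 0 ∧ z' < 0) ∨
    (0 < z ∧ 0 < z' ∧ z < k b ∧ z' < k b) ∨ (k b < z ∧ k b < z')

theorem k_le_zero {a : ℝ} (ha : a ≤ 0) : k a ≤ 0 := by
  have := k_strictMono.monotone ha
  rwa [k_zero] at this

theorem zero_le_k {b : ℝ} (hb : 0 ≤ b) : 0 ≤ k b := by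
  have := k_strictMono.monotone hb
  rwa [k_zero] at this

/-- if no critical point lies in `[z, z']` then `z, z'` are in the same branch -/
theorem same_of_avoid {a b z z' : ℝ} (ha : a ≤ 0) (hb : 0 ≤ b) (hzz : z ≤ z')
    (h : ∀ c ∈ crit a b, ¬ (z ≤ c ∧ c ≤ z')) : Same a b z z' := by
  have ha' := k_le_zero ha
  have hb' := zero_le_k hb
  have h1 := h (k a) (by simp [crit])
  have h2 := h 0 (by simp [crit])
  have h3 := h (k b) (by simp [crit])
  unfold Same
  by_cases c1 : z' < k a
  · left; exact ⟨by linarith, c1⟩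
  by_cases c2 : z ≤ k a
  · exact absurd ⟨c2, not_lt.mp c1⟩ h1
  push Not at c1 c2
  by_cases c3 : z' < 0
  · right; left; exact ⟨c2, by linarith, by linarith, c3⟩
  by_cases c4 : z ≤ 0
  · exact absurd ⟨c4, not_lt.mp c3⟩ h2
  push Not at c3 c4
  by_cases c5 : z' < k b
  · right; right; left; exact ⟨c4, by linarith, by linarith, c5⟩
  by_cases c6 : z ≤ k b
  · exact absurd ⟨c6, not_lt.mp c5⟩ h3
  push Not at c5 c6
  right; right; right
  exact ⟨c6, by linarith⟩

/-- an expansion function for the branches, in the coordinate `x ∈ ℝ` -/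
structure Expand (κ a b : ℝ) (h : ℝ → ℝ) : Prop where
  left : ∀ x y, x < y → y < a → κ * (h y - h x) ≤ h (y + 1) - h (x + 1)
  midneg : ∀ x y, a < x → x < y → y < 0 → κ * (h y - h x) ≤ h (-1 / y) - h (-1 / x)
  midpos : ∀ x y, 0 < x → x < y → y < b → κ * (h y - h x) ≤ h (-1 / y) - h (-1 / x)
  right : ∀ x y, b < x → x < y → κ * (h y - h x) ≤ h (y - 1) - h (x - 1)

theorem fT_mem {e a b y : ℝ} (ha : a ≤ 0) (hb : 0 ≤ b) (hy : |y| < 1) (hc : y ∉ crit a b) :
    |fTilde e a b y| < 1 := by
  have h1 : y ≠ k a := fun h => hc (by simp [crit, h])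
  have h2 : y ≠ 0 := fun h => hc (by simp [crit, h])
  have h3 : y ≠ k b := fun h => hc (by simp [crit, h])
  have hab : k a ≤ k b := (k_le_zero ha).trans (zero_le_k hb)
  rcases lt_or_gt_of_ne h1 with h | h
  · rw [fT_left hy h]; exact abs_k_lt _
  · rcases lt_or_gt_of_ne h3 with h' | h'
    · rw [fT_mid hy h h' h2]; exact abs_k_lt _
    · rw [fT_right hab hy h']; exact abs_k_lt _

theorem neg_inv_lt {x y : ℝ} (hxy : x < y) (h : 0 < x * y) : -1 / x < -1 / y := by
  have hx : x ≠ 0 := by rintro rfl; simp at h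
  have hy : y ≠ 0 := by rintro rfl; simp at h
  rw [← sub_pos]
  have : -1 / y - -1 / x = (y - x) / (x * y) := by field_simp; ring
  rw [this]
  exact div_pos (by linarith) h

/-- strict monotonicity on branches -/
theorem fT_lt {e a b z z' : ℝ} (ha : a ≤ 0) (hb : 0 ≤ b) (hz : |z| < 1) (hz' : |z'| < 1)
    (hs : Same a b z z') (hlt : z < z') : fTilde e a b z < fTilde e a b z' := by
  have hab : k a ≤ k b := (k_le_zero ha).trans (zero_le_k hb)
  have hk := kInv_strictMonoOn (abs_lt.mp hz) (abs_lt.mp hz') hlt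
  rcases hs with ⟨h1, h2⟩ | ⟨h1, h2, h3, h4⟩ | ⟨h1, h2, h3, h4⟩ | ⟨h1, h2⟩
  · rw [fT_left hz h1, fT_left hz' h2]
    exact k_strictMono (by linarith)
  · have hb' := zero_le_k hb
    rw [fT_mid hz h1 (by linarith) h3.ne, fT_mid hz' h2 (by linarith) h4.ne]
    apply k_strictMono
    apply neg_inv_lt hk
    have e1 : kInv z < 0 := by rw [kInv_lt_iff hz, k_zero]; exact h3
    have e2 : kInv z' < 0 := by rw [kInv_lt_iff hz', k_zero]; exact h4
    nlinarith
  · have ha' := k_le_zero ha
    rw [fT_mid hz (by linarith) h3 h1.ne', fT_mid hz' (by linarith) h4 h2.ne']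
    apply k_strictMono
    apply neg_inv_lt hk
    have e1 : 0 < kInv z := by rw [lt_kInv_iff hz, k_zero]; exact h1
    have e2 : 0 < kInv z' := by rw [lt_kInv_iff hz', k_zero]; exact h2
    nlinarith
  · rw [fT_right hab hz h1, fT_right hab hz' h2]
    exact k_strictMono (by linarith)

/-- expansion on branches -/
theorem fT_expand {e κ a b z z' : ℝ} {h : ℝ → ℝ} (hh : Expand κ a b h) (ha : a ≤ 0) (hb : 0 ≤ b)
    (hz : |z| < 1) (hz' : |z'| < 1) (hs : Same a b z z') (hlt : z < z') :
    κ * (h (kInv z') - h (kInv z)) ≤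
      h (kInv (fTilde e a b z')) - h (kInv (fTilde e a b z)) := by
  have hab : k a ≤ k b := (k_le_zero ha).trans (zero_le_k hb)
  have hk := kInv_strictMonoOn (abs_lt.mp hz) (abs_lt.mp hz') hlt
  rcases hs with ⟨h1, h2⟩ | ⟨h1, h2, h3, h4⟩ | ⟨h1, h2, h3, h4⟩ | ⟨h1, h2⟩
  · rw [fT_left hz h1, fT_left hz' h2, kInv_k, kInv_k]
    exact hh.left _ _ hk ((kInv_lt_iff hz' a).mpr h2)
  · have hb' := zero_le_k hb
    rw [fT_mid hz h1 (by linarith) h3.ne, fT_mid hz' h2 (by linarith) h4.ne, kInv_k, kInv_k]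
    refine hh.midneg _ _ ((lt_kInv_iff hz a).mpr h1) hk ?_
    rw [kInv_lt_iff hz', k_zero]; exact h4
  · have ha' := k_le_zero ha
    rw [fT_mid hz (by linarith) h3 h1.ne', fT_mid hz' (by linarith) h4 h2.ne', kInv_k, kInv_k]
    refine hh.midpos _ _ ?_ hk ((kInv_lt_iff hz' b).mpr h4)
    rw [lt_kInv_iff hz, k_zero]; exact h1
  · rw [fT_right hab hz h1, fT_right hab hz' h2, kInv_k, kInv_k]
    exact hh.right _ _ ((lt_kInv_iff hz b).mpr h1) hk

/-- continuity away from the critical points -/
theorem fT_continuousAt {e a b y : ℝ} (ha : a ≤ 0) (hb : 0 ≤ b) (hy : |y| < 1)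
    (hc : y ∉ crit a b) : ContinuousAt (fTilde e a b) y := by
  have h1 : y ≠ k a := fun h => hc (by simp [crit, h])
  have h2 : y ≠ 0 := fun h => hc (by simp [crit, h])
  have h3 : y ≠ k b := fun h => hc (by simp [crit, h])
  have hab : k a ≤ k b := (k_le_zero ha).trans (zero_le_k hb)
  have hnhds : ∀ᶠ z in nhds y, |z| < 1 := (continuous_abs.tendsto y).eventually (gt_mem_nhds hy)
  have hk := kInv_continuousAt hy
  rcases lt_or_gt_of_ne h1 with h | h
  · have hc2 : ContinuousAt (fun z => k (kInv z + 1)) y :=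
      k_continuous.continuousAt.comp (hk.add continuousAt_const)
    apply hc2.congr
    filter_upwards [hnhds, gt_mem_nhds h] with z hz1 hz2
    rw [fT_left hz1 hz2]
  · rcases lt_or_gt_of_ne h3 with h' | h'
    · have hne : kInv y ≠ 0 := by
        intro h0
        have := k_kInv hy
        rw [h0, k_zero] at this
        exact h2 this.symm
      have hc2 : ContinuousAt (fun z => k (-1 / kInv z)) y :=
        k_continuous.continuousAt.comp (continuousAt_const.div hk hne)
      apply hc2.congr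
      filter_upwards [hnhds, lt_mem_nhds h, gt_mem_nhds h', isOpen_ne.mem_nhds h2] with z hz1 hz2 hz3 hz4
      rw [fT_mid hz1 hz2 hz3 hz4]
    · have hc2 : ContinuousAt (fun z => k (kInv z - 1)) y :=
        k_continuous.continuousAt.comp (hk.sub continuousAt_const)
      apply hc2.congr
      filter_upwards [hnhds, lt_mem_nhds h'] with z hz1 hz2
      rw [fT_right hab hz1 hz2]

theorem fT_mapsTo {e a b : ℝ} (he : e = 1 ∨ e = -1) : MapsTo (fTilde e a b) (Icc (-1) 1) (Icc (-1) 1) := by
  intro y hy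
  have hk : ∀ x, k x ∈ Icc (-1 : ℝ) 1 := fun x => ⟨(k_mem x).1.le, (k_mem x).2.le⟩
  unfold fTilde tTilde sTilde tInvTilde
  split_ifs
  · exact hk _
  · exact hy
  · rcases he with rfl | rfl <;> simp
  · exact hk _
  · simp
  · exact hk _
  · exact hy

/-! ### The orbit model -/

/-- `S` on the projective line -/
noncomputable def sO : Option ℝ → Option ℝ
  | none => some 0
  | some x => if x = 0 then none else some (-1 / x)

/-- `T` on the projective line -/
noncomputable def tO : Option ℝ → Option ℝ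
  | none => none
  | some x => some (x + 1)

/-- `T⁻¹` on the projective line -/
noncomputable def tO' : Option ℝ → Option ℝ
  | none => none
  | some x => some (x - 1)

theorem sO_sO (x : Option ℝ) : sO (sO x) = x := by
  rcases x with _ | x
  · simp [sO]
  · by_cases hx : x = 0
    · simp [sO, hx]
    · have : -1 / x ≠ 0 := div_ne_zero (by norm_num) hx
      simp only [sO, if_neg hx, if_neg this]
      congr 1
      field_simp

theorem tO_tO' (x : Option ℝ) : tO (tO' x) = x := by
  rcases x with _ | x <;> simp [tO, tO']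

theorem tO'_tO (x : Option ℝ) : tO' (tO x) = x := by
  rcases x with _ | x <;> simp [tO, tO']

theorem tO_rel (x : Option ℝ) : tO (sO (tO x)) = sO (tO' (sO x)) := by
  rcases x with _ | x
  · simp [sO, tO, tO']
  · by_cases h0 : x = 0
    · subst h0
      simp [sO, tO, tO']
    · by_cases h1 : x = -1
      · subst h1
        simp [sO, tO, tO']
      · have h2 : x + 1 ≠ 0 := fun h => h1 (by linarith)
        have h3 : -1 / x - 1 ≠ 0 := by
          have : -1 / x - 1 = -(x + 1) / x := by field_simp; ring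
          rw [this]
          exact div_ne_zero (neg_ne_zero.mpr h2) h0
        simp only [sO, tO, tO', if_neg h0, if_neg h2, if_neg h3]
        congr 1
        have h4 : -1 - x ≠ 0 := fun h => h1 (by linarith)
        field_simp
        ring

/-- the point of the projective line -/
noncomputable def toO (y : ℝ) : Option ℝ := if |y| < 1 then some (kInv y) else none

theorem toO_fT {e a b : ℝ} (he : e = 1 ∨ e = -1) {y : ℝ} :
    toO (fTilde e a b y) = tO (toO y) ∨ toO (fTilde e a b y) = sO (toO y) ∨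
      toO (fTilde e a b y) = tO' (toO y) := by
  have hkk : ∀ x, toO (k x) = some x := by
    intro x
    simp [toO, abs_k_lt, kInv_k]
  unfold fTilde
  split_ifs with h1 h2
  · left
    unfold tTilde
    split_ifs with h3
    · rw [hkk]; simp [toO, h3, tO]
    · simp [toO, h3, tO]
  · right; left
    unfold sTilde
    split_ifs with h3 h4
    · subst h3
      have : toO e = none := by rcases he with rfl | rfl <;> simp [toO]
      rw [this]
      simp [toO, kInv_zero, sO]
    · have hne : kInv y ≠ 0 := by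
        intro h0
        have := k_kInv h4
        rw [h0, k_zero] at this
        exact h3 this.symm
      rw [hkk]; simp [toO, h4, sO, hne]
    · have e1 : toO y = none := by simp [toO, h4]
      rw [e1]
      simp [toO, kInv_zero, sO]
  · right; right
    unfold tInvTilde
    split_ifs with h3
    · rw [hkk]; simp [toO, h3, tO']
    · simp [toO, h3, tO']

theorem toO_mem_FF {e a b : ℝ} (he : e = 1 ∨ e = -1) (p : Option ℝ) (n : ℕ) (y : ℝ)
    (h : toO ((fTilde e a b)^[n] y) = p) : toO y ∈ FF sO tO tO' p n := by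
  induction n generalizing y with
  | zero =>
    rw [mem_FF]; left; exact h
  | succ n ih =>
    rw [Function.iterate_succ_apply] at h
    have h1 := ih _ h
    rcases toO_fT he (a := a) (b := b) (y := y) with h2 | h2 | h2
    · have : toO y = tO' (toO (fTilde e a b y)) := by rw [h2, tO'_tO]
      rw [this]
      exact t'_mem_FF sO tO tO' sO_sO tO_tO' tO'_tO tO_rel p n _ h1
    · have : toO y = sO (toO (fTilde e a b y)) := by rw [h2, sO_sO]
      rw [this]
      exact s_mem_FF sO tO tO' sO_sO p n _ h1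
    · have : toO y = tO (toO (fTilde e a b y)) := by rw [h2, tO_tO']
      rw [this]
      exact t_mem_FF sO tO tO' sO_sO tO_tO' tO_rel p n _ h1

theorem toO_injOn : InjOn toO (Ioo (-1 : ℝ) 1) := by
  intro x hx y hy hxy
  have h1 : |x| < 1 := abs_lt.mpr hx
  have h2 : |y| < 1 := abs_lt.mpr hy
  simp only [toO, if_pos h1, if_pos h2, Option.some.injEq] at hxy
  rw [← k_kInv h1, ← k_kInv h2, hxy]

/-- points of `(-1,1)` whose orbit hits a critical point before time `n` -/
def badSet (e a b : ℝ) (n : ℕ) : Set ℝ :=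
  {y | y ∈ Ioo (-1 : ℝ) 1 ∧ ∃ j < n, (fTilde e a b)^[j] y ∈ crit a b}

theorem badSet_finite_card {e a b : ℝ} (he : e = 1 ∨ e = -1) (n : ℕ) :
    ∃ D : Finset ℝ, (D : Set ℝ) = badSet e a b n ∧ D.card ≤ 24 * Nat.fib (n + 2) := by
  classical
  set F : Finset (Option ℝ) := FF sO tO tO' (toO (k a)) n ∪ FF sO tO tO' (toO 0) n ∪
    FF sO tO tO' (toO (k b)) n with hF
  have hmaps : MapsTo toO (badSet e a b n) (F : Set (Option ℝ)) := by
    rintro y ⟨hy, j, hj, hc⟩
    simp only [crit, mem_insert_iff, mem_singleton_iff] at hc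
    rw [hF]
    simp only [Finset.coe_union, mem_union, Finset.mem_coe]
    rcases hc with h | h | h
    · left; left
      exact FF_mono _ _ _ _ hj.le (toO_mem_FF he _ j y (by rw [h]))
    · left; right
      exact FF_mono _ _ _ _ hj.le (toO_mem_FF he _ j y (by rw [h]))
    · right
      exact FF_mono _ _ _ _ hj.le (toO_mem_FF he _ j y (by rw [h]))
  have hinj : InjOn toO (badSet e a b n) := toO_injOn.mono (fun y hy => hy.1)
  have hfin : (badSet e a b n).Finite := Set.Finite.of_injOn hmaps hinj F.finite_toSet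
  refine ⟨hfin.toFinset, by simp, ?_⟩
  have h1 : hfin.toFinset.card ≤ F.card := by
    apply Finset.card_le_card_of_injOn toO
    · intro y hy
      exact hmaps (by simpa using hy)
    · intro y hy z hz hyz
      exact hinj (by simpa using hy) (by simpa using hz) hyz
  have h2 : F.card ≤ 8 * Nat.fib (n + 2) + 8 * Nat.fib (n + 2) + 8 * Nat.fib (n + 2) := by
    refine (Finset.card_union_le _ _).trans (add_le_add ?_ (card_FF _ _ _ _ _))
    exact (Finset.card_union_le _ _).trans (add_le_add (card_FF _ _ _ _ _) (card_FF _ _ _ _ _))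
  omega

/-! ### Intervals avoiding the bad set -/

theorem iterate_on_interval {e a b : ℝ} (ha : a ≤ 0) (hb : 0 ≤ b) (n : ℕ) (J : Set ℝ)
    (hJ : J.OrdConnected) (hJ1 : J ⊆ Ioo (-1 : ℝ) 1) (hJ2 : Disjoint J (badSet e a b n)) :
    ∀ j ≤ n, ContinuousOn (fTilde e a b)^[j] J ∧ StrictMonoOn (fTilde e a b)^[j] J ∧
      MapsTo (fTilde e a b)^[j] J (Ioo (-1) 1) ∧
      ∀ (κ : ℝ) (h : ℝ → ℝ), 0 ≤ κ → Expand κ a b h → ∀ x ∈ J, ∀ y ∈ J, x < y →
        κ ^ j * (h (kInv y) - h (kInv x)) ≤
          h (kInv ((fTilde e a b)^[j] y)) - h (kInv ((fTilde e a b)^[j] x)) := by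
  intro j
  induction j with
  | zero =>
    intro _
    refine ⟨continuousOn_id, strictMonoOn_id, hJ1, ?_⟩
    intro κ h _ _ x _ y _ _
    simp
  | succ j ih =>
    intro hj
    obtain ⟨h1, h2, h3, h4⟩ := ih (by omega)
    have hcrit : ∀ x ∈ J, (fTilde e a b)^[j] x ∉ crit a b := by
      intro x hx hc
      exact Set.disjoint_left.mp hJ2 hx ⟨hJ1 hx, j, by omega, hc⟩
    have hsame : ∀ x ∈ J, ∀ y ∈ J, x < y →
        Same a b ((fTilde e a b)^[j] x) ((fTilde e a b)^[j] y) := by
      intro x hx y hy hxy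
      apply same_of_avoid ha hb (h2 hx hy hxy).le
      intro c hc hcc
      have hord : ((fTilde e a b)^[j] '' J).OrdConnected :=
        (hJ.isPreconnected.image _ h1).ordConnected
      have hmem : c ∈ (fTilde e a b)^[j] '' J :=
        hord.out (mem_image_of_mem _ hx) (mem_image_of_mem _ hy) hcc
      obtain ⟨z, hz, rfl⟩ := hmem
      exact hcrit z hz hc
    have hit : ∀ x, (fTilde e a b)^[j + 1] x = fTilde e a b ((fTilde e a b)^[j] x) := fun x =>
      Function.iterate_succ_apply' _ _ _
    refine ⟨?_, ?_, ?_, ?_⟩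
    · intro x hx
      have h5 : ContinuousAt (fTilde e a b) ((fTilde e a b)^[j] x) :=
        fT_continuousAt ha hb (abs_lt.mpr (h3 hx)) (hcrit x hx)
      have h6 := h5.comp_continuousWithinAt (h1 x hx)
      have h7 : (fTilde e a b ∘ (fTilde e a b)^[j]) = (fTilde e a b)^[j + 1] := by
        rw [Function.iterate_succ']
      rw [h7] at h6
      exact h6
    · intro x hx y hy hxy
      rw [hit, hit]
      exact fT_lt ha hb (abs_lt.mpr (h3 hx)) (abs_lt.mpr (h3 hy)) (hsame x hx y hy hxy)
        (h2 hx hy hxy)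
    · intro x hx
      rw [hit]
      exact abs_lt.mp (fT_mem ha hb (abs_lt.mpr (h3 hx)) (hcrit x hx))
    · intro κ h hκ hh x hx y hy hxy
      rw [hit, hit]
      have h5 := fT_expand (e := e) hh ha hb (abs_lt.mpr (h3 hx)) (abs_lt.mpr (h3 hy))
        (hsame x hx y hy hxy) (h2 hx hy hxy)
      have h6 := h4 κ h hκ hh x hx y hy hxy
      calc κ ^ (j + 1) * (h (kInv y) - h (kInv x)) = κ * (κ ^ j * (h (kInv y) - h (kInv x))) := by ring
        _ ≤ κ * (h (kInv ((fTilde e a b)^[j] y)) - h (kInv ((fTilde e a b)^[j] x))) :=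
          mul_le_mul_of_nonneg_left h6 hκ
        _ ≤ _ := h5

end Pool.Agent.H46.ABCF
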