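import Mathlib
import Pool.Agent.H46.ABCF.Branch

/-!
# The conformal distribution function of the map `f_{0,1}`
-/

namespace Pool.Agent.H46.ABCF

open Set

section

variable {κ : ℝ} (hκ : κ ^ 3 - κ ^ 2 - 1 = 0)

include hκ in
theorem one_lt_kappa : 1 < κ := by
  have h0 : 0 < κ := by
    by_contra h
    push Not at h
    nlinarith [sq_nonneg κ, mul_nonneg (neg_nonneg.mpr h) (sq_nonneg κ)]
  by_contra h
  push Not at h
  nlinarith [sq_nonneg κ, mul_nonneg (sub_nonneg.mpr h) (sq_nonneg κ)]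

include hκ in
theorem kappa_lt_two : κ < 2 := by
  have h1 := one_lt_kappa hκ
  by_contra h
  push Not at h
  nlinarith [mul_nonneg (sub_nonneg.mpr h) (sq_nonneg κ), sq_nonneg κ]

/-- the folded map -/
noncomputable def Fq (x : ℝ) : ℝ := if x ≤ 0 then x + 1 else if x ≤ 1 then -1 / x else x

/-- the digit -/
noncomputable def dq (κ x : ℝ) : ℝ := if x ≤ 0 then 0 else if x ≤ 1 then 1 else κ - 1

/-- the distribution function -/
noncomputable def q (κ x : ℝ) : ℝ := ∑' n : ℕ, (κ⁻¹) ^ n * dq κ (Fq^[n] x)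

include hκ in
theorem dq_nonneg (x : ℝ) : 0 ≤ dq κ x := by
  have h1 := one_lt_kappa hκ
  unfold dq; split_ifs <;> linarith

include hκ in
theorem dq_le (x : ℝ) : dq κ x ≤ 1 := by
  have h1 := kappa_lt_two hκ
  unfold dq; split_ifs <;> linarith

include hκ in
theorem q_summable (x : ℝ) : Summable (fun n : ℕ => (κ⁻¹) ^ n * dq κ (Fq^[n] x)) := by
  have h1 := one_lt_kappa hκ
  have h0 : 0 < κ⁻¹ := inv_pos.mpr (by linarith)
  apply Summable.of_nonneg_of_le (fun n => mul_nonneg (pow_nonneg h0.le n) (dq_nonneg hκ _))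
    (fun n => mul_le_of_le_one_right (pow_nonneg h0.le n) (dq_le hκ _))
    (summable_geometric_of_lt_one h0.le (inv_lt_one_of_one_lt₀ h1))

include hκ in
theorem q_eq (x : ℝ) : q κ x = dq κ x + κ⁻¹ * q κ (Fq x) := by
  unfold q
  rw [(q_summable hκ x).tsum_eq_zero_add, ← tsum_mul_left]
  simp only [pow_zero, one_mul, Function.iterate_zero, id_eq, pow_succ,
    Function.iterate_succ_apply]
  congr 1
  apply tsum_congr
  intro n
  ring

include hκ in
theorem q_nonneg (x : ℝ) : 0 ≤ q κ x := by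
  have h1 := one_lt_kappa hκ
  have h0 : 0 < κ⁻¹ := inv_pos.mpr (by linarith)
  exact tsum_nonneg fun n => mul_nonneg (pow_nonneg h0.le n) (dq_nonneg hκ _)

include hκ in
theorem q_le_aux (x : ℝ) : q κ x ≤ (1 - κ⁻¹)⁻¹ := by
  have h1 := one_lt_kappa hκ
  have h0 : 0 < κ⁻¹ := inv_pos.mpr (by linarith)
  rw [← tsum_geometric_of_lt_one h0.le (inv_lt_one_of_one_lt₀ h1)]
  exact (q_summable hκ x).tsum_le_tsum
    (fun n => mul_le_of_le_one_right (pow_nonneg h0.le n) (dq_le hκ _))
    (summable_geometric_of_lt_one h0.le (inv_lt_one_of_one_lt₀ h1))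

include hκ in
theorem q_nonpos {x : ℝ} (hx : x ≤ 0) : q κ x = κ⁻¹ * q κ (x + 1) := by
  rw [q_eq hκ x]
  simp [dq, Fq, hx]

include hκ in
theorem q_unit {x : ℝ} (hx0 : 0 < x) (hx1 : x ≤ 1) : q κ x = 1 + κ⁻¹ * q κ (-1 / x) := by
  rw [q_eq hκ x]
  simp [dq, Fq, not_le.mpr hx0, hx1]

include hκ in
theorem q_big {x : ℝ} (hx : 1 < x) : q κ x = κ := by
  have h1 := one_lt_kappa hκ
  have h2 := q_eq hκ x
  have h3 : ¬ x ≤ 0 := by linarith
  simp only [dq, Fq, if_neg h3, if_neg (not_le.mpr hx)] at h2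
  have h4 : κ * q κ x = κ * (κ - 1) + q κ x := by
    have : κ * q κ x = κ * (κ - 1 + κ⁻¹ * q κ x) := by rw [← h2]
    rw [this]
    field_simp
  have h5 : (κ - 1) * (q κ x - κ) = 0 := by linear_combination h4
  rcases mul_eq_zero.mp h5 with h | h <;> linarith

include hκ in
theorem q_one : q κ 1 = κ := by
  have h1 := one_lt_kappa hκ
  have h0 : κ ≠ 0 := by linarith
  have e1 := q_unit hκ (x := 1) one_pos le_rfl
  have e2 := q_nonpos hκ (x := -1) (by norm_num)
  have e3 := q_nonpos hκ (x := 0) le_rfl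
  rw [show (-1 : ℝ) / 1 = -1 by norm_num, e2, show (-1 : ℝ) + 1 = 0 by norm_num, e3,
    show (0 : ℝ) + 1 = 1 by norm_num] at e1
  have e4 : κ ^ 3 * q κ 1 = κ ^ 3 + q κ 1 := by
    have : κ ^ 3 * q κ 1 = κ ^ 3 * (1 + κ⁻¹ * (κ⁻¹ * (κ⁻¹ * q κ 1))) := by rw [← e1]
    rw [this]
    field_simp
  have e5 : κ ^ 2 * (q κ 1 - κ) = 0 := by linear_combination e4 - q κ 1 * hκ
  rcases mul_eq_zero.mp e5 with h | h
  · exact absurd h (pow_ne_zero 2 h0)
  · linarith

include hκ in
theorem q_zero : q κ 0 = 1 := by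
  have h1 := one_lt_kappa hκ
  rw [q_nonpos hκ le_rfl, zero_add, q_one hκ]
  exact inv_mul_cancel₀ (by linarith)

include hκ in
theorem q_neg_one : q κ (-1) = κ⁻¹ := by
  rw [q_nonpos hκ (by norm_num), show (-1 : ℝ) + 1 = 0 by norm_num, q_zero hκ, mul_one]

include hκ in
theorem q_mono : Monotone (q κ) := by
  have h1 := one_lt_kappa hκ
  have h0 : 0 < κ⁻¹ := inv_pos.mpr (by linarith)
  set B := (1 - κ⁻¹)⁻¹ with hB
  have hB0 : 0 ≤ B := (q_nonneg hκ 0).trans (q_le_aux hκ 0)
  have key : ∀ n : ℕ, ∀ x y : ℝ, x ≤ y → q κ x - q κ y ≤ B * κ⁻¹ ^ n := by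
    intro n
    induction n with
    | zero =>
      intro x y _
      have := q_le_aux hκ x
      have := q_nonneg hκ y
      simp only [pow_zero, mul_one]
      linarith
    | succ n ih =>
      have hpos : 0 ≤ B * κ⁻¹ ^ n := by positivity
      have hstep : ∀ u v : ℝ, u ≤ v → κ⁻¹ * (q κ u - q κ v) ≤ B * κ⁻¹ ^ (n + 1) := by
        intro u v huv
        calc κ⁻¹ * (q κ u - q κ v) ≤ κ⁻¹ * (B * κ⁻¹ ^ n) :=
              mul_le_mul_of_nonneg_left (ih u v huv) h0.le
          _ = B * κ⁻¹ ^ (n + 1) := by ring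
      have hpos' : 0 ≤ B * κ⁻¹ ^ (n + 1) := by positivity
      -- both in the nonpositive half line
      have c1 : ∀ x y : ℝ, x ≤ y → y ≤ 0 → q κ x - q κ y ≤ B * κ⁻¹ ^ (n + 1) := by
        intro x y hxy hy
        rw [q_nonpos hκ hy, q_nonpos hκ (hxy.trans hy), ← mul_sub]
        exact hstep _ _ (by linarith)
      have c2 : ∀ x y : ℝ, 0 < x → x ≤ y → y ≤ 1 → q κ x - q κ y ≤ B * κ⁻¹ ^ (n + 1) := by
        intro x y hx hxy hy
        rw [q_unit hκ (hx.trans_le hxy) hy, q_unit hκ hx (hxy.trans hy)]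
        have : (1 + κ⁻¹ * q κ (-1 / x)) - (1 + κ⁻¹ * q κ (-1 / y)) =
          κ⁻¹ * (q κ (-1 / x) - q κ (-1 / y)) := by ring
        rw [this]
        apply hstep
        rcases hxy.eq_or_lt with rfl | hlt
        · exact le_rfl
        · exact (neg_inv_lt hlt (by nlinarith)).le
      have c3 : ∀ x y : ℝ, x ≤ y → y ≤ 1 → q κ x - q κ y ≤ B * κ⁻¹ ^ (n + 1) := by
        intro x y hxy hy
        rcases le_or_gt y 0 with hy0 | hy0
        · exact c1 x y hxy hy0
        · rcases le_or_gt x 0 with hx0 | hx0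
          · have e1 := c1 x 0 hx0 le_rfl
            have e2 : q κ y = 1 + κ⁻¹ * q κ (-1 / y) := q_unit hκ hy0 hy
            have e3 : 0 ≤ κ⁻¹ * q κ (-1 / y) := mul_nonneg h0.le (q_nonneg hκ _)
            have e4 := q_zero hκ
            linarith
          · exact c2 x y hx0 hxy hy
      intro x y hxy
      rcases le_or_gt y 1 with hy | hy
      · exact c3 x y hxy hy
      · rw [q_big hκ hy]
        rcases le_or_gt x 1 with hx | hx
        · have := c3 x 1 hx le_rfl
          rw [q_one hκ] at this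
          exact this
        · rw [q_big hκ hx]
          simpa using hpos'
  intro x y hxy
  have hlim : Filter.Tendsto (fun n : ℕ => B * κ⁻¹ ^ n) Filter.atTop (nhds (B * 0)) :=
    (tendsto_pow_atTop_nhds_zero_of_lt_one h0.le (inv_lt_one_of_one_lt₀ h1)).const_mul B
  rw [mul_zero] at hlim
  have := ge_of_tendsto' hlim (fun n => key n x y hxy)
  linarith

include hκ in
theorem q_le (x : ℝ) : q κ x ≤ κ := by
  have h := q_mono hκ (le_max_left x 2)
  rwa [q_big hκ (by have := le_max_right x 2; linarith : (1 : ℝ) < max x 2)] at h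

include hκ in
theorem q_dense : ∀ n : ℕ, ∀ t : ℝ, 0 ≤ t → t ≤ κ → ∃ x ≤ 1, |q κ x - t| ≤ κ * κ⁻¹ ^ n := by
  have h1 := one_lt_kappa hκ
  have h0 : 0 < κ⁻¹ := inv_pos.mpr (by linarith)
  have hκ0 : κ ≠ 0 := by linarith
  intro n
  induction n with
  | zero =>
    intro t ht0 ht1
    refine ⟨1, le_rfl, ?_⟩
    rw [q_one hκ, pow_zero, mul_one, abs_le]
    constructor <;> linarith
  | succ n ih =>
    intro t ht0 ht1
    rcases le_or_gt t 1 with ht | ht
    · obtain ⟨y, hy, hyt⟩ := ih (κ * t) (by positivity) (by nlinarith)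
      refine ⟨y - 1, by linarith, ?_⟩
      rw [q_nonpos hκ (by linarith : y - 1 ≤ 0), show y - 1 + 1 = y by ring]
      have : κ⁻¹ * q κ y - t = κ⁻¹ * (q κ y - κ * t) := by field_simp
      rw [this, abs_mul, abs_of_pos h0]
      calc κ⁻¹ * |q κ y - κ * t| ≤ κ⁻¹ * (κ * κ⁻¹ ^ n) := by gcongr
        _ = κ * κ⁻¹ ^ (n + 1) := by ring
    · have hinv : κ * (κ - 1) = κ⁻¹ := by
        field_simp
        linear_combination hκ
      obtain ⟨y, hy, hyt⟩ := ih (κ * (t - 1)) (by nlinarith) (by nlinarith)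
      set z := min y (-1) with hz
      have hz1 : z ≤ -1 := min_le_right _ _
      have hqz : |q κ z - κ * (t - 1)| ≤ κ * κ⁻¹ ^ n := by
        rcases le_or_gt y (-1) with h | h
        · rw [hz, min_eq_left h]; exact hyt
        · rw [hz, min_eq_right h.le, q_neg_one hκ]
          have e1 : κ⁻¹ ≤ q κ y := by
            rw [← q_neg_one hκ]; exact q_mono hκ h.le
          have e2 : κ * (t - 1) ≤ κ⁻¹ := by rw [← hinv]; nlinarith
          have e3 := (abs_le.mp hyt).2
          rw [abs_le]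
          constructor
          · have : 0 ≤ κ * κ⁻¹ ^ n := by positivity
            linarith
          · linarith
      have hx0 : 0 < -1 / z := by
        apply div_pos_of_neg_of_neg <;> linarith
      have hx1 : -1 / z ≤ 1 := by
        rw [div_le_one_of_neg (by linarith)]
        exact hz1
      refine ⟨-1 / z, hx1, ?_⟩
      have hzz : -1 / (-1 / z) = z := by
        have : z ≠ 0 := by linarith
        field_simp
      rw [q_unit hκ hx0 hx1, hzz]
      have : 1 + κ⁻¹ * q κ z - t = κ⁻¹ * (q κ z - κ * (t - 1)) := by field_simp; ring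
      rw [this, abs_mul, abs_of_pos h0]
      calc κ⁻¹ * |q κ z - κ * (t - 1)| ≤ κ⁻¹ * (κ * κ⁻¹ ^ n) := by gcongr
        _ = κ * κ⁻¹ ^ (n + 1) := by ring

include hκ in
theorem q_continuous : Continuous (q κ) := by
  have h1 := one_lt_kappa hκ
  have h0 : 0 < κ⁻¹ := inv_pos.mpr (by linarith)
  set g : ℝ → Icc (0 : ℝ) κ := fun x => ⟨q κ x, q_nonneg hκ x, q_le hκ x⟩ with hg
  have hgm : Monotone g := fun x y hxy => q_mono hκ hxy
  have hgd : DenseRange g := by
    intro t
    rw [Metric.mem_closure_iff]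
    intro ε hε
    have hlim : Filter.Tendsto (fun n : ℕ => κ * κ⁻¹ ^ n) Filter.atTop (nhds (κ * 0)) :=
      (tendsto_pow_atTop_nhds_zero_of_lt_one h0.le (inv_lt_one_of_one_lt₀ h1)).const_mul κ
    rw [mul_zero] at hlim
    obtain ⟨n, hn⟩ := (hlim.eventually (gt_mem_nhds hε)).exists
    obtain ⟨x, _, hx⟩ := q_dense hκ n t.1 t.2.1 t.2.2
    refine ⟨g x, mem_range_self x, ?_⟩
    rw [Subtype.dist_eq, Real.dist_eq, abs_sub_comm]
    exact lt_of_le_of_lt hx hn
  have hc : Continuous g := hgm.continuous_of_denseRange hgd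
  exact continuous_subtype_val.comp hc

/-! ### The companion function `r(x) = q(-1/x)` -/

/-- equals `q (-1/x)` for `x > 0` -/
noncomputable def r (κ x : ℝ) : ℝ := κ * (q κ (min x 1) - 1) + (q κ (-1 / max x 1) - κ⁻¹)

include hκ in
theorem r_mono : Monotone (r κ) := by
  have h1 := one_lt_kappa hκ
  intro x y hxy
  unfold r
  have e1 : q κ (min x 1) ≤ q κ (min y 1) := q_mono hκ (min_le_min_right 1 hxy)
  have e2 : q κ (-1 / max x 1) ≤ q κ (-1 / max y 1) := by
    apply q_mono hκ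
    have h2 : (1 : ℝ) ≤ max x 1 := le_max_right _ _
    have h3 : max x 1 ≤ max y 1 := max_le_max_right 1 hxy
    rcases h3.eq_or_lt with h | h
    · rw [h]
    · exact (neg_inv_lt h (by nlinarith)).le
  nlinarith

include hκ in
theorem r_continuous : Continuous (r κ) := by
  unfold r
  have hq := q_continuous hκ
  have h1 : Continuous (fun x : ℝ => -1 / max x 1) := by
    apply Continuous.div continuous_const (by fun_prop)
    intro x
    have : (1 : ℝ) ≤ max x 1 := le_max_right _ _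
    linarith
  have h2 : Continuous (fun x : ℝ => q κ (min x 1)) := hq.comp (by fun_prop)
  have h3 : Continuous (fun x : ℝ => q κ (-1 / max x 1)) := hq.comp h1
  fun_prop

include hκ in
theorem kappa_inv : κ * (κ - 1) = κ⁻¹ := by
  have h1 := one_lt_kappa hκ
  have hκ0 : κ ≠ 0 := by linarith
  field_simp
  linear_combination hκ

include hκ in
theorem r_unit {x : ℝ} (hx1 : x ≤ 1) : r κ x = κ * (q κ x - 1) := by
  unfold r
  rw [min_eq_left hx1, max_eq_right hx1, show (-1 : ℝ) / 1 = -1 by norm_num, q_neg_one hκ]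
  ring

include hκ in
theorem r_pos {x : ℝ} (hx : 0 < x) : r κ x = q κ (-1 / x) := by
  have h1 := one_lt_kappa hκ
  rcases le_or_gt x 1 with hx1 | hx1
  · rw [r_unit hκ hx1, q_unit hκ hx hx1]
    field_simp
    ring
  · unfold r
    rw [min_eq_right hx1.le, max_eq_left hx1.le, q_one hκ]
    linear_combination kappa_inv hκ

include hκ in
theorem q_add_one {x : ℝ} (hx : x ≤ 0) : q κ (x + 1) = κ * q κ x := by
  have h1 := one_lt_kappa hκ
  rw [q_nonpos hκ hx]
  field_simp

include hκ in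
theorem q_sub_one {x : ℝ} (hx : x ≤ 1) : q κ (x - 1) = κ⁻¹ * q κ x := by
  rw [q_nonpos hκ (by linarith : x - 1 ≤ 0), sub_add_cancel]

include hκ in
theorem r_sub_one {x : ℝ} (hx : 1 ≤ x) : r κ (x - 1) = κ ^ 3 * r κ x - κ ^ 2 := by
  have h1 := one_lt_kappa hκ
  have hκ0 : κ ≠ 0 := by linarith
  rcases hx.eq_or_lt with rfl | hx1
  · rw [sub_self, r_unit hκ zero_le_one, r_unit hκ le_rfl, q_zero hκ, q_one hκ]
    linear_combination (-κ ^ 3) * kappa_inv hκ - κ ^ 2 * mul_inv_cancel₀ hκ0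
  · have hx0 : 0 < x := by linarith
    have hxm : 0 < x - 1 := by linarith
    -- q(-1/x + 1) = κ q(-1/x)
    have e1 : q κ (-1 / x + 1) = κ * q κ (-1 / x) := by
      apply q_add_one hκ
      exact (div_neg_of_neg_of_pos (by norm_num) hx0).le
    have e2 : -1 / x + 1 = (x - 1) / x := by field_simp; ring
    have hu0 : 0 < (x - 1) / x := by positivity
    have hu1 : (x - 1) / x ≤ 1 := by
      rw [div_le_one hx0]; linarith
    -- q(-x/(x-1)) = κ (q((x-1)/x) - 1)
    have e3 := q_unit hκ hu0 hu1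
    have e4 : -1 / ((x - 1) / x) = -1 / (x - 1) - 1 := by field_simp; ring
    rw [e4] at e3
    have e5 : q κ (-1 / (x - 1)) = κ * q κ (-1 / (x - 1) - 1) := by
      have := q_add_one hκ (x := -1 / (x - 1) - 1) (by
        have : -1 / (x - 1) < 0 := div_neg_of_neg_of_pos (by norm_num) hxm
        linarith)
      rwa [sub_add_cancel] at this
    rw [r_pos hκ hxm, r_pos hκ hx0, e5]
    rw [e2] at e1
    rw [e1] at e3
    have e6 : q κ (-1 / (x - 1) - 1) = κ * (κ * q κ (-1 / x) - 1) := by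
      rw [e3]; field_simp; ring
    rw [e6]
    ring

end

end Pool.Agent.H46.ABCF
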