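import Mathlib
import Pool.Agent.H46.ABCF.Q

/-!
# Expansion functions for all parameters
-/

namespace Pool.Agent.H46.ABCF

open Set

/-- monotone, continuous and of bounded oscillation -/
def Nice (h : ℝ → ℝ) : Prop := Monotone h ∧ Continuous h ∧ ∃ B : ℝ, ∀ x y, h x - h y ≤ B

/-- `h1` to the left of `c`, `h2` to the right -/
noncomputable def glue (c : ℝ) (h1 h2 : ℝ → ℝ) (x : ℝ) : ℝ := h1 (min x c) + (h2 (max x c) - h2 c)

theorem Nice.glue {h1 h2 : ℝ → ℝ} (n1 : Nice h1) (n2 : Nice h2) (c : ℝ) : Nice (glue c h1 h2) := by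
  obtain ⟨m1, c1, B1, b1⟩ := n1
  obtain ⟨m2, c2, B2, b2⟩ := n2
  refine ⟨?_, ?_, B1 + B2, ?_⟩
  · intro x y hxy
    have e1 := m1 (min_le_min_right c hxy)
    have e2 := m2 (max_le_max_right c hxy)
    unfold ABCF.glue
    linarith
  · unfold ABCF.glue
    have e1 : Continuous (fun x => h1 (min x c)) := c1.comp (by fun_prop)
    have e2 : Continuous (fun x => h2 (max x c)) := c2.comp (by fun_prop)
    fun_prop
  · intro x y
    have e1 := b1 (min x c) (min y c)
    have e2 := b2 (max x c) (max y c)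
    unfold ABCF.glue
    linarith

theorem Nice.smul {h : ℝ → ℝ} (n : Nice h) {c : ℝ} (hc : 0 ≤ c) : Nice (fun x => c * h x) := by
  obtain ⟨m, ct, B, b⟩ := n
  refine ⟨fun x y hxy => mul_le_mul_of_nonneg_left (m hxy) hc, by fun_prop, c * B, ?_⟩
  intro x y
  rw [← mul_sub]
  exact mul_le_mul_of_nonneg_left (b x y) hc

theorem glue_left {c : ℝ} {h1 h2 : ℝ → ℝ} {x y : ℝ} (hx : x ≤ c) (hy : y ≤ c) :
    glue c h1 h2 y - glue c h1 h2 x = h1 y - h1 x := by
  unfold glue
  rw [min_eq_left hx, min_eq_left hy, max_eq_right hx, max_eq_right hy]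
  ring

theorem glue_right {c : ℝ} {h1 h2 : ℝ → ℝ} {x y : ℝ} (hx : c ≤ x) (hy : c ≤ y) :
    glue c h1 h2 y - glue c h1 h2 x = h2 y - h2 x := by
  unfold glue
  rw [min_eq_right hx, min_eq_right hy, max_eq_left hx, max_eq_left hy]
  ring

theorem mono_Ici {Φ : ℝ → ℝ} {c d : ℝ} (h1 : MonotoneOn Φ (Icc c d)) (h2 : MonotoneOn Φ (Ici d)) :
    MonotoneOn Φ (Ici c) := by
  intro x hx y hy hxy
  rcases le_total y d with h | h
  · exact h1 ⟨hx, hxy.trans h⟩ ⟨hy, h⟩ hxy
  · rcases le_total x d with h' | h'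
    · exact (h1 ⟨hx, h'⟩ ⟨le_trans hx h', le_rfl⟩ h').trans (h2 (mem_Ici.mpr le_rfl) h h)
    · exact h2 h' h hxy

theorem mono_Iic {Φ : ℝ → ℝ} {c d : ℝ} (h1 : MonotoneOn Φ (Iic c)) (h2 : MonotoneOn Φ (Icc c d)) :
    MonotoneOn Φ (Iic d) := by
  intro x hx y hy hxy
  rcases le_total c x with h | h
  · exact h2 ⟨h, hx⟩ ⟨h.trans hxy, hy⟩ hxy
  · rcases le_total c y with h' | h'
    · exact (h1 h (mem_Iic.mpr le_rfl) h).trans (h2 ⟨le_rfl, h'.trans hy⟩ ⟨h', hy⟩ h')
    · exact h1 h h' hxy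

theorem mono_Ico {Φ : ℝ → ℝ} {c d e : ℝ} (h1 : MonotoneOn Φ (Icc c d)) (h2 : MonotoneOn Φ (Ico d e)) :
    MonotoneOn Φ (Ico c e) := by
  intro x hx y hy hxy
  rcases le_total y d with h | h
  · exact h1 ⟨hx.1, hxy.trans h⟩ ⟨hy.1, h⟩ hxy
  · rcases le_total x d with h' | h'
    · exact (h1 ⟨hx.1, h'⟩ ⟨hx.1.trans h', le_rfl⟩ h').trans
        (h2 ⟨le_rfl, lt_of_le_of_lt h hy.2⟩ ⟨h, hy.2⟩ h)
    · exact h2 ⟨h', hx.2⟩ ⟨h, hy.2⟩ hxy

theorem Expand.mirror {κ a b : ℝ} {h : ℝ → ℝ} (hh : Expand κ a b h) :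
    Expand κ (-b) (-a) (fun x => - h (-x)) := by
  refine ⟨?_, ?_, ?_, ?_⟩
  · intro x y hxy hy
    have := hh.right (-y) (-x) (by linarith) (by linarith)
    have e1 : -(y + 1) = -y - 1 := by ring
    have e2 : -(x + 1) = -x - 1 := by ring
    simp only [e1, e2]
    linarith
  · intro x y hx hxy hy
    have := hh.midpos (-y) (-x) (by linarith) (by linarith) (by linarith)
    have e1 : -(-1 / y) = -1 / (-y) := by rw [div_neg]
    have e2 : -(-1 / x) = -1 / (-x) := by rw [div_neg]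
    simp only [e1, e2]
    linarith
  · intro x y hx hxy hy
    have := hh.midneg (-y) (-x) (by linarith) (by linarith) (by linarith)
    have e1 : -(-1 / y) = -1 / (-y) := by rw [div_neg]
    have e2 : -(-1 / x) = -1 / (-x) := by rw [div_neg]
    simp only [e1, e2]
    linarith
  · intro x y hx hxy
    have := hh.left (-y) (-x) (by linarith) (by linarith)
    have e1 : -(y - 1) = -y + 1 := by ring
    have e2 : -(x - 1) = -x + 1 := by ring
    simp only [e1, e2]
    linarith

theorem Nice.mirror {h : ℝ → ℝ} (n : Nice h) : Nice (fun x => - h (-x)) := by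
  obtain ⟨m, c, B, b⟩ := n
  refine ⟨fun x y hxy => neg_le_neg (m (neg_le_neg hxy)), by fun_prop, B, ?_⟩
  intro x y
  have := b (-y) (-x)
  linarith

section

variable {κ : ℝ} (hκ : κ ^ 3 - κ ^ 2 - 1 = 0)

include hκ in
theorem nice_q : Nice (q κ) :=
  ⟨q_mono hκ, q_continuous hκ, κ, fun x y => by
    have := q_le hκ x
    have := q_nonneg hκ y
    linarith⟩

include hκ in
theorem nice_r : Nice (r κ) := by
  have h1 := one_lt_kappa hκ
  refine ⟨r_mono hκ, r_continuous hκ, κ * κ + κ, fun x y => ?_⟩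
  unfold r
  have e1 := q_le hκ (min x 1)
  have e2 := q_nonneg hκ (min y 1)
  have e3 := q_le hκ (-1 / max x 1)
  have e4 := q_nonneg hκ (-1 / max y 1)
  have e5 : κ * (q κ (min x 1) - q κ (min y 1)) ≤ κ * κ :=
    mul_le_mul_of_nonneg_left (by linarith) (by linarith)
  linarith

include hκ in
theorem r_neg_inv {x : ℝ} (hx : x < 0) : r κ (-1 / x) = q κ x := by
  rw [r_pos hκ (div_pos_of_neg_of_neg (by norm_num) hx)]
  congr 1
  field_simp

include hκ in
theorem r_sub_one_diff {x y : ℝ} (hx : 1 ≤ x) (hy : 1 ≤ y) :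
    r κ (y - 1) - r κ (x - 1) = κ ^ 3 * (r κ y - r κ x) := by
  rw [r_sub_one hκ hx, r_sub_one hκ hy]; ring

include hκ in
theorem q_of_r {x : ℝ} (hx : x ≤ 1) : q κ x = κ⁻¹ * r κ x + 1 := by
  have h1 := one_lt_kappa hκ
  rw [r_unit hκ hx]
  field_simp
  ring

/-- the case `b ≥ 1` -/
noncomputable def hA (κ b : ℝ) : ℝ → ℝ :=
  glue 1 (q κ) (glue b (fun x => κ⁻¹ * r κ x) (fun x => κ * r κ x))

include hκ in
theorem nice_hA (b : ℝ) : Nice (hA κ b) := by
  have h1 := one_lt_kappa hκ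
  exact (nice_q hκ).glue (((nice_r hκ).smul (inv_nonneg.mpr (by linarith))).glue
    ((nice_r hκ).smul (by linarith)) b) 1

theorem hA_1 {b x y : ℝ} (hx : x ≤ 1) (hy : y ≤ 1) : hA κ b y - hA κ b x = q κ y - q κ x :=
  glue_left hx hy

include hκ in
theorem hA_2 {b x y : ℝ} (hb : 1 ≤ b) (hx1 : x ≤ b) (hxy : x ≤ y) (hy : y ≤ b) :
    hA κ b y - hA κ b x = κ⁻¹ * (r κ y - r κ x) := by
  have hr : ∀ x y : ℝ, 1 ≤ x → 1 ≤ y → x ≤ b → y ≤ b →
      hA κ b y - hA κ b x = κ⁻¹ * (r κ y - r κ x) := by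
    intro x y h1 h2 h3 h4
    unfold hA
    rw [glue_right h1 h2, glue_left h3 h4]; ring
  rcases le_total y 1 with h | h
  · rw [hA_1 (hxy.trans h) h, q_of_r hκ h, q_of_r hκ (hxy.trans h)]; ring
  · rcases le_total x 1 with h' | h'
    · have e1 := hA_1 (κ := κ) (b := b) h' le_rfl
      have e2 := hr 1 y le_rfl h hb hy
      rw [q_of_r hκ h', q_of_r hκ le_rfl] at e1
      linear_combination e1 + e2
    · exact hr x y h' h hx1 hy

theorem hA_3 {b x y : ℝ} (hb : 1 ≤ b) (hx : b ≤ x) (hy : b ≤ y) :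
    hA κ b y - hA κ b x = κ * (r κ y - r κ x) := by
  unfold hA
  rw [glue_right (hb.trans hx) (hb.trans hy), glue_right hx hy]; ring

include hκ in
theorem expand_A {a b : ℝ} (ha : a ≤ 0) (hb : 1 ≤ b) (hab : -(a * b) ≤ 1) :
    Expand κ a b (hA κ b) := by
  have h1 := one_lt_kappa hκ
  have hκ0 : κ ≠ 0 := by linarith
  refine ⟨?_, ?_, ?_, ?_⟩
  · intro x y hxy hy
    rw [hA_1 (by linarith) (by linarith), hA_1 (by linarith) (by linarith),
      q_add_one hκ (by linarith), q_add_one hκ (by linarith)]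
    linarith
  · intro x y hx hxy hy
    have hbx : b ≤ -1 / x := by
      rw [le_div_iff_of_neg (by linarith)]
      nlinarith
    have hby : b ≤ -1 / y := by
      rw [le_div_iff_of_neg hy]
      nlinarith
    rw [hA_1 (by linarith) (by linarith), hA_3 hb hbx hby, r_neg_inv hκ hy,
      r_neg_inv hκ (hxy.trans hy)]
  · intro x y hx hxy hy
    have e1 : -1 / x ≤ 1 := (div_neg_of_neg_of_pos (by norm_num) hx).le.trans (by norm_num)
    have e2 : -1 / y ≤ 1 := (div_neg_of_neg_of_pos (by norm_num) (hx.trans hxy)).le.trans (by norm_num)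
    rw [hA_2 hκ hb (by linarith) hxy.le hy.le, hA_1 e1 e2, ← r_pos hκ hx, ← r_pos hκ (hx.trans hxy),
      ← mul_assoc, mul_inv_cancel₀ hκ0, one_mul]
  · have hm : MonotoneOn (fun x => hA κ b (x - 1) - κ * hA κ b x) (Ici b) := by
      apply mono_Ici (d := b + 1)
      · rintro x ⟨hx1, hx2⟩ y ⟨hy1, hy2⟩ hxy
        have e1 := hA_3 (κ := κ) hb hx1 hy1
        have e2 := hA_2 hκ hb (x := x - 1) (y := y - 1) (by linarith) (by linarith) (by linarith)
        rw [r_sub_one_diff hκ (hb.trans hx1) (hb.trans hy1)] at e2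
        have e3 : κ⁻¹ * (κ ^ 3 * (r κ y - r κ x)) = κ ^ 2 * (r κ y - r κ x) := by field_simp
        rw [e3] at e2
        simp only
        nlinarith
      · intro x hx y hy hxy
        have hx' : b + 1 ≤ x := hx
        have hy' : b + 1 ≤ y := hy
        have e1 := hA_3 (κ := κ) hb (x := x) (y := y) (by linarith) (by linarith)
        have e2 := hA_3 (κ := κ) hb (x := x - 1) (y := y - 1) (by linarith) (by linarith)
        rw [r_sub_one_diff hκ (by linarith) (by linarith)] at e2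
        have e3 : 0 ≤ r κ y - r κ x := sub_nonneg.mpr (r_mono hκ hxy)
        have e4 : 0 ≤ (κ ^ 2 * (κ ^ 2 - 1)) * (r κ y - r κ x) := by
          apply mul_nonneg _ e3
          apply mul_nonneg (sq_nonneg κ)
          nlinarith
        simp only
        nlinarith
    intro x y hx hxy
    have := hm (mem_Ici.mpr hx.le) (mem_Ici.mpr (hx.trans hxy).le) hxy.le
    simp only at this
    linarith

/-- the case `b < 1`, `a ≥ -1/2` -/
noncomputable def hB (κ b : ℝ) : ℝ → ℝ :=
  glue b (q κ) (glue 1 (fun x => κ⁻¹ ^ 2 * q κ x)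
    (glue 2 (fun x => κ⁻¹ * r κ x) (fun x => κ * r κ x)))

include hκ in
theorem nice_hB (b : ℝ) : Nice (hB κ b) := by
  have h1 := one_lt_kappa hκ
  exact (nice_q hκ).glue (((nice_q hκ).smul (by positivity)).glue
    (((nice_r hκ).smul (inv_nonneg.mpr (by linarith))).glue
    ((nice_r hκ).smul (by linarith)) 2) 1) b

theorem hB_1 {b x y : ℝ} (hx : x ≤ b) (hy : y ≤ b) : hB κ b y - hB κ b x = q κ y - q κ x :=
  glue_left hx hy

theorem hB_2 {b x y : ℝ} (hx : b ≤ x) (hy : b ≤ y) (hx1 : x ≤ 1) (hy1 : y ≤ 1) :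
    hB κ b y - hB κ b x = κ⁻¹ ^ 2 * (q κ y - q κ x) := by
  unfold hB
  rw [glue_right hx hy, glue_left hx1 hy1]; ring

theorem hB_3 {b x y : ℝ} (hb : b ≤ 1) (hx : 1 ≤ x) (hy : 1 ≤ y) (hx1 : x ≤ 2) (hy1 : y ≤ 2) :
    hB κ b y - hB κ b x = κ⁻¹ * (r κ y - r κ x) := by
  unfold hB
  rw [glue_right (hb.trans hx) (hb.trans hy), glue_right hx hy, glue_left hx1 hy1]; ring

theorem hB_4 {b x y : ℝ} (hb : b ≤ 1) (hx : 2 ≤ x) (hy : 2 ≤ y) :
    hB κ b y - hB κ b x = κ * (r κ y - r κ x) := by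
  unfold hB
  rw [glue_right (by linarith) (by linarith), glue_right (by linarith) (by linarith),
    glue_right hx hy]; ring

include hκ in
theorem expand_B {a b : ℝ} (ha : a ≤ 0) (ha2 : -1 / 2 ≤ a) (hb : b ≤ 1) (hba : a + 1 ≤ b) :
    Expand κ a b (hB κ b) := by
  have h1 := one_lt_kappa hκ
  have hκ0 : κ ≠ 0 := by linarith
  refine ⟨?_, ?_, ?_, ?_⟩
  · intro x y hxy hy
    rw [hB_1 (by linarith) (by linarith), hB_1 (by linarith) (by linarith),
      q_add_one hκ (by linarith), q_add_one hκ (by linarith)]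
    linarith
  · intro x y hx hxy hy
    have hbx : 2 ≤ -1 / x := by
      rw [le_div_iff_of_neg (by linarith)]
      linarith
    have hby : 2 ≤ -1 / y := by
      rw [le_div_iff_of_neg hy]
      linarith
    rw [hB_1 (by linarith) (by linarith), hB_4 hb hbx hby, r_neg_inv hκ hy,
      r_neg_inv hκ (hxy.trans hy)]
  · intro x y hx hxy hy
    have e1 : -1 / x ≤ b := (div_neg_of_neg_of_pos (by norm_num) hx).le.trans (by linarith)
    have e2 : -1 / y ≤ b := (div_neg_of_neg_of_pos (by norm_num) (hx.trans hxy)).le.trans (by linarith)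
    rw [hB_1 (by linarith) (by linarith), hB_1 e1 e2, ← r_pos hκ hx, ← r_pos hκ (hx.trans hxy),
      r_unit hκ (by linarith), r_unit hκ (by linarith)]
    linarith
  · have hm : MonotoneOn (fun x => hB κ b (x - 1) - κ * hB κ b x) (Ici b) := by
      apply mono_Ici (d := 1)
      · rintro x ⟨hx1, hx2⟩ y ⟨hy1, hy2⟩ hxy
        have e1 := hB_2 (κ := κ) hx1 hy1 hx2 hy2
        have e2 := hB_1 (κ := κ) (b := b) (x := x - 1) (y := y - 1) (by linarith) (by linarith)
        rw [q_sub_one hκ hx2, q_sub_one hκ hy2] at e2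
        have e3 : κ * (κ⁻¹ ^ 2 * (q κ y - q κ x)) = κ⁻¹ * q κ y - κ⁻¹ * q κ x := by field_simp
        rw [← e1] at e3
        simp only
        linarith
      apply mono_Ici (d := b + 1)
      · rintro x ⟨hx1, hx2⟩ y ⟨hy1, hy2⟩ hxy
        have e1 := hB_3 (κ := κ) hb hx1 hy1 (by linarith) (by linarith)
        have e2 := hB_1 (κ := κ) (b := b) (x := x - 1) (y := y - 1) (by linarith) (by linarith)
        rw [q_of_r hκ (x := y - 1) (by linarith), q_of_r hκ (x := x - 1) (by linarith)] at e2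
        have e4 := r_sub_one_diff hκ hx1 hy1
        have e3 : 0 ≤ r κ y - r κ x := sub_nonneg.mpr (r_mono hκ hxy)
        have e5 : hB κ b (y - 1) - hB κ b (x - 1) = κ ^ 2 * (r κ y - r κ x) := by
          have : hB κ b (y - 1) - hB κ b (x - 1) = κ⁻¹ * (r κ (y - 1) - r κ (x - 1)) := by
            rw [e2]; ring
          rw [this, e4]; field_simp
        have e6 : κ * (hB κ b y - hB κ b x) = r κ y - r κ x := by
          rw [e1, ← mul_assoc, mul_inv_cancel₀ hκ0, one_mul]
        have e7 : 0 ≤ (κ ^ 2 - 1) * (r κ y - r κ x) := mul_nonneg (by nlinarith) e3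
        simp only
        linarith
      apply mono_Ici (d := 2)
      · rintro x ⟨hx1, hx2⟩ y ⟨hy1, hy2⟩ hxy
        have e1 := hB_3 (κ := κ) (b := b) (x := x) (y := y) hb (by linarith) (by linarith) hx2 hy2
        have e2 := hB_2 (κ := κ) (b := b) (x := x - 1) (y := y - 1) (by linarith) (by linarith)
          (by linarith) (by linarith)
        rw [q_of_r hκ (x := y - 1) (by linarith), q_of_r hκ (x := x - 1) (by linarith)] at e2
        have e4 := r_sub_one_diff hκ (x := x) (y := y) (by linarith) (by linarith)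
        have e5 : hB κ b (y - 1) - hB κ b (x - 1) = r κ y - r κ x := by
          have : hB κ b (y - 1) - hB κ b (x - 1) = κ⁻¹ ^ 3 * (r κ (y - 1) - r κ (x - 1)) := by
            rw [e2]; ring
          rw [this, e4]; field_simp
        have e6 : κ * (hB κ b y - hB κ b x) = r κ y - r κ x := by
          rw [e1, ← mul_assoc, mul_inv_cancel₀ hκ0, one_mul]
        simp only
        linarith
      apply mono_Ici (d := 3)
      · rintro x ⟨hx1, hx2⟩ y ⟨hy1, hy2⟩ hxy
        have e1 := hB_4 (κ := κ) hb hx1 hy1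
        have e2 := hB_3 (κ := κ) (b := b) (x := x - 1) (y := y - 1) hb (by linarith) (by linarith)
          (by linarith) (by linarith)
        rw [r_sub_one_diff hκ (by linarith) (by linarith)] at e2
        have e3 : κ⁻¹ * (κ ^ 3 * (r κ y - r κ x)) = κ * (κ * (r κ y - r κ x)) := by field_simp
        rw [e3, ← e1] at e2
        simp only
        linarith
      · intro x hx y hy hxy
        have hx' : 3 ≤ x := hx
        have hy' : 3 ≤ y := hy
        have e1 := hB_4 (κ := κ) hb (x := x) (y := y) (by linarith) (by linarith)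
        have e2 := hB_4 (κ := κ) hb (x := x - 1) (y := y - 1) (by linarith) (by linarith)
        rw [r_sub_one_diff hκ (by linarith) (by linarith)] at e2
        have e3 : 0 ≤ r κ y - r κ x := sub_nonneg.mpr (r_mono hκ hxy)
        have e4 : 0 ≤ (κ ^ 2 * (κ ^ 2 - 1)) * (r κ y - r κ x) := by
          apply mul_nonneg _ e3
          apply mul_nonneg (sq_nonneg κ)
          nlinarith
        simp only
        nlinarith
    intro x y hx hxy
    have := hm (mem_Ici.mpr hx.le) (mem_Ici.mpr (hx.trans hxy).le) hxy.le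
    simp only at this
    linarith

/-- the square `[-1,-1/2] × [1/2,1]` -/
noncomputable def hC (κ : ℝ) : ℝ → ℝ :=
  glue (-1 / 2) (q κ) (glue 0 (fun x => κ ^ 2 * q κ x) (glue 1 (fun x => κ⁻¹ * r κ x)
    (glue 2 (fun x => κ * r κ x) (fun x => κ ^ 3 * r κ x))))

include hκ in
theorem nice_hC : Nice (hC κ) := by
  have h1 := one_lt_kappa hκ
  exact (nice_q hκ).glue (((nice_q hκ).smul (by positivity)).glue
    (((nice_r hκ).smul (inv_nonneg.mpr (by linarith))).glue
    (((nice_r hκ).smul (by linarith)).glue ((nice_r hκ).smul (by positivity)) 2) 1) 0) (-1 / 2)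

theorem hC_1 {x y : ℝ} (hx : x ≤ -1 / 2) (hy : y ≤ -1 / 2) : hC κ y - hC κ x = q κ y - q κ x :=
  glue_left hx hy

theorem hC_2 {x y : ℝ} (hx : -1 / 2 ≤ x) (hy : -1 / 2 ≤ y) (hx1 : x ≤ 0) (hy1 : y ≤ 0) :
    hC κ y - hC κ x = κ ^ 2 * (q κ y - q κ x) := by
  unfold hC
  rw [glue_right hx hy, glue_left hx1 hy1]; ring

theorem hC_3 {x y : ℝ} (hx : 0 ≤ x) (hy : 0 ≤ y) (hx1 : x ≤ 1) (hy1 : y ≤ 1) :
    hC κ y - hC κ x = κ⁻¹ * (r κ y - r κ x) := by
  unfold hC
  rw [glue_right (by linarith) (by linarith), glue_right hx hy, glue_left hx1 hy1]; ring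

theorem hC_4 {x y : ℝ} (hx : 1 ≤ x) (hy : 1 ≤ y) (hx1 : x ≤ 2) (hy1 : y ≤ 2) :
    hC κ y - hC κ x = κ * (r κ y - r κ x) := by
  unfold hC
  rw [glue_right (by linarith) (by linarith), glue_right (by linarith) (by linarith),
    glue_right hx hy, glue_left hx1 hy1]; ring

theorem hC_5 {x y : ℝ} (hx : 2 ≤ x) (hy : 2 ≤ y) :
    hC κ y - hC κ x = κ ^ 3 * (r κ y - r κ x) := by
  unfold hC
  rw [glue_right (by linarith) (by linarith), glue_right (by linarith) (by linarith),
    glue_right (by linarith) (by linarith), glue_right hx hy]; ring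

include hκ in
theorem expand_C {a b : ℝ} (ha1 : -1 ≤ a) (ha2 : a ≤ -1 / 2) (hb1 : 1 / 2 ≤ b) (hb2 : b ≤ 1) :
    Expand κ a b (hC κ) := by
  have h1 := one_lt_kappa hκ
  have hκ0 : κ ≠ 0 := by linarith
  refine ⟨?_, ?_, ?_, ?_⟩
  · have hm : MonotoneOn (fun x => hC κ (x + 1) - κ * hC κ x) (Iic (-1 / 2)) := by
      apply mono_Iic (c := -1)
      · apply mono_Iic (c := -3 / 2)
        · intro x hx y hy hxy
          have hx' : x ≤ -3 / 2 := hx
          have hy' : y ≤ -3 / 2 := hy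
          have e1 := hC_1 (κ := κ) (x := x) (y := y) (by linarith) (by linarith)
          have e2 := hC_1 (κ := κ) (x := x + 1) (y := y + 1) (by linarith) (by linarith)
          rw [q_add_one hκ (by linarith), q_add_one hκ (by linarith)] at e2
          simp only
          nlinarith
        · rintro x ⟨hx1, hx2⟩ y ⟨hy1, hy2⟩ hxy
          have e1 := hC_1 (κ := κ) (x := x) (y := y) (by linarith) (by linarith)
          have e2 := hC_2 (κ := κ) (x := x + 1) (y := y + 1) (by linarith) (by linarith)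
            (by linarith) (by linarith)
          rw [q_add_one hκ (by linarith), q_add_one hκ (by linarith)] at e2
          have e3 : 0 ≤ q κ y - q κ x := sub_nonneg.mpr (q_mono hκ hxy)
          have e4 : 0 ≤ (κ * (κ ^ 2 - 1)) * (q κ y - q κ x) := by
            apply mul_nonneg _ e3
            apply mul_nonneg (by linarith)
            nlinarith
          simp only
          nlinarith
      · rintro x ⟨hx1, hx2⟩ y ⟨hy1, hy2⟩ hxy
        have e1 := hC_1 (κ := κ) (x := x) (y := y) (by linarith) (by linarith)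
        have e2 := hC_3 (κ := κ) (x := x + 1) (y := y + 1) (by linarith) (by linarith)
          (by linarith) (by linarith)
        rw [r_unit hκ (by linarith), r_unit hκ (by linarith),
          q_add_one hκ (by linarith), q_add_one hκ (by linarith)] at e2
        have e3 : κ⁻¹ * (κ * (κ * q κ y - 1) - κ * (κ * q κ x - 1)) = κ * (q κ y - q κ x) := by
          field_simp; ring
        rw [e3, ← e1] at e2
        simp only
        linarith
    intro x y hxy hy
    have := hm (mem_Iic.mpr (by linarith : x ≤ -1 / 2)) (mem_Iic.mpr (by linarith : y ≤ -1 / 2)) hxy.le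
    simp only at this
    linarith
  · have hm : MonotoneOn (fun x => hC κ (-1 / x) - κ * hC κ x) (Ico (-1) 0) := by
      apply mono_Ico (d := -1 / 2)
      · rintro x ⟨hx1, hx2⟩ y ⟨hy1, hy2⟩ hxy
        have a1 : 1 ≤ -1 / x := by rw [le_div_iff_of_neg (by linarith)]; linarith
        have a2 : 1 ≤ -1 / y := by rw [le_div_iff_of_neg (by linarith)]; linarith
        have a3 : -1 / x ≤ 2 := by rw [div_le_iff_of_neg (by linarith)]; linarith
        have a4 : -1 / y ≤ 2 := by rw [div_le_iff_of_neg (by linarith)]; linarith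
        have e1 := hC_1 (κ := κ) hx2 hy2
        have e2 := hC_4 (κ := κ) a1 a2 a3 a4
        rw [r_neg_inv hκ (by linarith), r_neg_inv hκ (by linarith), ← e1] at e2
        simp only
        linarith
      · rintro x ⟨hx1, hx2⟩ y ⟨hy1, hy2⟩ hxy
        have a1 : 2 ≤ -1 / x := by rw [le_div_iff_of_neg (by linarith)]; linarith
        have a2 : 2 ≤ -1 / y := by rw [le_div_iff_of_neg (by linarith)]; linarith
        have e1 := hC_2 (κ := κ) hx1 hy1 hx2.le hy2.le
        have e2 := hC_5 (κ := κ) a1 a2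
        rw [r_neg_inv hκ (by linarith), r_neg_inv hκ (by linarith)] at e2
        have e3 : κ ^ 3 * (q κ y - q κ x) = κ * (κ ^ 2 * (q κ y - q κ x)) := by ring
        rw [e3, ← e1] at e2
        simp only
        linarith
    intro x y hx hxy hy
    have := hm (show x ∈ Ico (-1 : ℝ) 0 from ⟨by linarith, by linarith⟩)
      (show y ∈ Ico (-1 : ℝ) 0 from ⟨by linarith, hy⟩) hxy.le
    simp only at this
    linarith
  · intro x y hx hxy hy
    have hy0 : 0 < y := hx.trans hxy
    have e1 : -1 / x ≤ -1 / 2 := by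
      rw [div_le_div_iff₀ hx (by norm_num)]; linarith
    have e2 : -1 / y ≤ -1 / 2 := by
      rw [div_le_div_iff₀ hy0 (by norm_num)]; linarith
    rw [hC_3 (by linarith) (by linarith) (by linarith) (by linarith), hC_1 e1 e2, ← r_pos hκ hx,
      ← r_pos hκ hy0, ← mul_assoc, mul_inv_cancel₀ hκ0, one_mul]
  · have hm : MonotoneOn (fun x => hC κ (x - 1) - κ * hC κ x) (Ici (1 / 2)) := by
      apply mono_Ici (d := 1)
      · rintro x ⟨hx1, hx2⟩ y ⟨hy1, hy2⟩ hxy
        have e1 := hC_3 (κ := κ) (x := x) (y := y) (by linarith) (by linarith) hx2 hy2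
        have e2 := hC_2 (κ := κ) (x := x - 1) (y := y - 1) (by linarith) (by linarith)
          (by linarith) (by linarith)
        rw [q_sub_one hκ hx2, q_sub_one hκ hy2] at e2
        rw [r_unit hκ hx2, r_unit hκ hy2] at e1
        have e3 : κ ^ 2 * (κ⁻¹ * q κ y - κ⁻¹ * q κ x) = κ * (hC κ y - hC κ x) := by
          rw [e1]; field_simp; ring
        rw [e3] at e2
        simp only
        linarith
      apply mono_Ici (d := 2)
      · rintro x ⟨hx1, hx2⟩ y ⟨hy1, hy2⟩ hxy
        have e1 := hC_4 (κ := κ) hx1 hy1 hx2 hy2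
        have e2 := hC_3 (κ := κ) (x := x - 1) (y := y - 1) (by linarith) (by linarith)
          (by linarith) (by linarith)
        rw [r_sub_one_diff hκ hx1 hy1] at e2
        have e3 : κ⁻¹ * (κ ^ 3 * (r κ y - r κ x)) = κ * (κ * (r κ y - r κ x)) := by field_simp
        rw [e3, ← e1] at e2
        simp only
        linarith
      apply mono_Ici (d := 3)
      · rintro x ⟨hx1, hx2⟩ y ⟨hy1, hy2⟩ hxy
        have e1 := hC_5 (κ := κ) hx1 hy1
        have e2 := hC_4 (κ := κ) (x := x - 1) (y := y - 1) (by linarith) (by linarith)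
          (by linarith) (by linarith)
        rw [r_sub_one_diff hκ (by linarith) (by linarith), ← e1] at e2
        simp only
        linarith
      · intro x hx y hy hxy
        have hx' : 3 ≤ x := hx
        have hy' : 3 ≤ y := hy
        have e1 := hC_5 (κ := κ) (x := x) (y := y) (by linarith) (by linarith)
        have e2 := hC_5 (κ := κ) (x := x - 1) (y := y - 1) (by linarith) (by linarith)
        rw [r_sub_one_diff hκ (by linarith) (by linarith), ← e1] at e2
        have e3 : 0 ≤ hC κ y - hC κ x := by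
          rw [e1]
          exact mul_nonneg (by positivity) (sub_nonneg.mpr (r_mono hκ hxy))
        have e4 : 0 ≤ (κ ^ 3 - κ) * (hC κ y - hC κ x) := by
          apply mul_nonneg _ e3
          have : κ ^ 3 - κ = κ * (κ ^ 2 - 1) := by ring
          rw [this]
          apply mul_nonneg (by linarith)
          nlinarith
        simp only
        linarith
    intro x y hx hxy
    have := hm (mem_Ici.mpr (by linarith : 1 / 2 ≤ x)) (mem_Ici.mpr (by linarith : 1 / 2 ≤ y)) hxy.le
    simp only at this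
    linarith

include hκ in
theorem q_strict : q κ (-1) < q κ (-1 / 2) := by
  have h1 := one_lt_kappa hκ
  have h0 : 0 < κ⁻¹ := inv_pos.mpr (by linarith)
  have e1 : q κ (-1 / 2) = κ⁻¹ * (1 + κ⁻¹ * (κ⁻¹ * κ⁻¹)) := by
    rw [q_nonpos hκ (by norm_num), show (-1 : ℝ) / 2 + 1 = 1 / 2 by norm_num,
      q_unit hκ (by norm_num) (by norm_num), show (-1 : ℝ) / (1 / 2) = -2 by norm_num,
      q_nonpos hκ (x := -2) (by norm_num), show (-2 : ℝ) + 1 = -1 by norm_num, q_neg_one hκ]
  rw [e1, q_neg_one hκ]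
  have : 0 < κ⁻¹ * (κ⁻¹ * (κ⁻¹ * κ⁻¹)) := by positivity
  nlinarith

include hκ in
/-- for every `(a,b) ∈ 𝒫` there is an expansion function -/
theorem exists_expand {a b : ℝ} (ha : a ≤ 0) (hb : 0 ≤ b) (hab : 1 ≤ b - a) (hab' : -(a * b) ≤ 1) :
    ∃ h : ℝ → ℝ, Nice h ∧ (∃ x y, h x < h y) ∧ Expand κ a b h := by
  have hs := q_strict hκ
  have nA : ∀ a b : ℝ, a ≤ 0 → 1 ≤ b → -(a * b) ≤ 1 →
      ∃ h : ℝ → ℝ, Nice h ∧ (∃ x y, h x < h y) ∧ Expand κ a b h := by
    intro a b ha hb hab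
    refine ⟨hA κ b, nice_hA hκ b, ⟨-1, -1 / 2, ?_⟩, expand_A hκ ha hb hab⟩
    have := hA_1 (κ := κ) (b := b) (x := -1) (y := -1 / 2) (by norm_num) (by norm_num)
    linarith
  have nB : ∀ a b : ℝ, a ≤ 0 → -1 / 2 ≤ a → b ≤ 1 → a + 1 ≤ b →
      ∃ h : ℝ → ℝ, Nice h ∧ (∃ x y, h x < h y) ∧ Expand κ a b h := by
    intro a b ha ha2 hb hba
    refine ⟨hB κ b, nice_hB hκ b, ⟨-1, -1 / 2, ?_⟩, expand_B hκ ha ha2 hb hba⟩
    have := hB_1 (κ := κ) (b := b) (x := -1) (y := -1 / 2) (by linarith) (by linarith)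
    linarith
  have mir : ∀ a b : ℝ, (∃ h : ℝ → ℝ, Nice h ∧ (∃ x y, h x < h y) ∧ Expand κ (-b) (-a) h) →
      ∃ h : ℝ → ℝ, Nice h ∧ (∃ x y, h x < h y) ∧ Expand κ a b h := by
    rintro a b ⟨h, n, ⟨x, y, hxy⟩, he⟩
    refine ⟨fun x => - h (-x), n.mirror, ⟨-y, -x, by simpa using hxy⟩, ?_⟩
    have := he.mirror
    simpa using this
  by_cases c1 : 1 ≤ b
  · exact nA a b ha c1 hab'
  by_cases c2 : a ≤ -1
  · exact mir a b (nA (-b) (-a) (by linarith) (by linarith) (by linarith))
  by_cases c3 : -1 / 2 ≤ a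
  · exact nB a b ha c3 (by linarith) (by linarith)
  by_cases c4 : b ≤ 1 / 2
  · exact mir a b (nB (-b) (-a) (by linarith) (by linarith) (by linarith) (by linarith))
  · push Not at c1 c2 c3 c4
    refine ⟨hC κ, nice_hC hκ, ⟨-1, -1 / 2, ?_⟩, expand_C hκ c2.le c3.le c4.le c1.le⟩
    have := hC_1 (κ := κ) (x := -1) (y := -1 / 2) (by norm_num) (by norm_num)
    linarith

end

end Pool.Agent.H46.ABCF
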