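import Mathlib
import Pool.Agent.H46.ABCF.H

/-!
# Lower and upper bounds for the number of laps
-/

namespace Pool.Agent.H46.ABCF

open Set

theorem split_ind (H : ℝ → ℝ) (c : ℝ) (hc : 0 ≤ c) (l r : ℝ)
    (hH : ∀ p, l < p → p < r → ContinuousAt H p) (E D : Finset ℝ) (W : ℝ → ℝ → ℝ)
    (base : ∀ x y, l ≤ x → x < y → y ≤ r → x ∉ E → y ∉ E → (∀ p ∈ D, ¬ (x < p ∧ p < y)) →
      c * (H y - H x) ≤ W x y)
    (sup : ∀ x u v y p, l ≤ x → x < u → u < p → p < v → v < y → y ≤ r → x ∉ E → u ∉ E → v ∉ E →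
      y ∉ E → p ∈ D → W x u + W v y ≤ W x y) :
    ∀ x y, l ≤ x → x < y → y ≤ r → x ∉ E → y ∉ E → c * (H y - H x) ≤ W x y := by
  classical
  suffices hmain : ∀ m : ℕ, ∀ x y, (D.filter (fun p => x < p ∧ p < y)).card = m → l ≤ x → x < y →
      y ≤ r → x ∉ E → y ∉ E → c * (H y - H x) ≤ W x y from
    fun x y h1 h2 h3 h4 h5 => hmain _ x y rfl h1 h2 h3 h4 h5
  intro m
  induction m using Nat.strong_induction_on with
  | _ m ih =>
    intro x y hm hlx hxy hyr hxE hyE
    by_cases hempty : ∀ p ∈ D, ¬ (x < p ∧ p < y)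
    · exact base x y hlx hxy hyr hxE hyE hempty
    push Not at hempty
    obtain ⟨p, hpD, hxp, hpy⟩ := hempty
    apply le_of_forall_pos_le_add
    intro ε hε
    have hε' : 0 < ε / (2 * c + 1) := by positivity
    have hcont := hH p (by linarith) (by linarith)
    rw [Metric.continuousAt_iff] at hcont
    obtain ⟨δ, hδ, hδ'⟩ := hcont _ hε'
    have hi1 : (Ioo (max x (p - δ)) p).Infinite := Ioo_infinite (max_lt hxp (by linarith))
    have hi2 : (Ioo p (min y (p + δ))).Infinite := Ioo_infinite (lt_min hpy (by linarith))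
    obtain ⟨u, hu, huE⟩ := (hi1.sdiff E.finite_toSet).nonempty
    obtain ⟨v, hv, hvE⟩ := (hi2.sdiff E.finite_toSet).nonempty
    have hu1 : x < u := lt_of_le_of_lt (le_max_left _ _) hu.1
    have hu2 : p - δ < u := lt_of_le_of_lt (le_max_right _ _) hu.1
    have hv1 : v < y := lt_of_lt_of_le hv.2 (min_le_left _ _)
    have hv2 : v < p + δ := lt_of_lt_of_le hv.2 (min_le_right _ _)
    have hup : u < p := hu.2
    have hpv : p < v := hv.1
    have huE' : u ∉ E := fun h => huE (by simpa using h)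
    have hvE' : v ∉ E := fun h => hvE (by simpa using h)
    have d1 : |H u - H p| < ε / (2 * c + 1) := by
      rw [← Real.dist_eq]
      apply hδ'
      rw [Real.dist_eq, abs_lt]
      constructor <;> linarith
    have d2 : |H v - H p| < ε / (2 * c + 1) := by
      rw [← Real.dist_eq]
      apply hδ'
      rw [Real.dist_eq, abs_lt]
      constructor <;> linarith
    have hpmem : p ∈ D.filter (fun p => x < p ∧ p < y) := by simp [hpD, hxp, hpy]
    have c1 : (D.filter (fun p => x < p ∧ p < u)).card < m := by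
      rw [← hm]
      apply Finset.card_lt_card
      rw [Finset.ssubset_iff_of_subset]
      · exact ⟨p, hpmem, by simp; intro _ _; linarith⟩
      · intro w hw
        simp only [Finset.mem_filter] at hw ⊢
        exact ⟨hw.1, hw.2.1, by linarith [hw.2.2]⟩
    have c2 : (D.filter (fun p => v < p ∧ p < y)).card < m := by
      rw [← hm]
      apply Finset.card_lt_card
      rw [Finset.ssubset_iff_of_subset]
      · exact ⟨p, hpmem, by simp; intro _ h; linarith⟩
      · intro w hw
        simp only [Finset.mem_filter] at hw ⊢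
        exact ⟨hw.1, by linarith [hw.2.1], hw.2.2⟩
    have i1 := ih _ c1 x u rfl hlx hu1 (by linarith) hxE huE'
    have i2 := ih _ c2 v y rfl (by linarith) hv1 hyr hvE' hyE
    have i3 := sup x u v y p hlx hu1 hup hpv hv1 hyr hxE huE' hvE' hyE hpD
    have i4 : c * (H v - H u) ≤ ε := by
      have a1 := (abs_lt.mp d1).1
      have a2 := (abs_lt.mp d2).2
      have a3 : H v - H u ≤ 2 * (ε / (2 * c + 1)) := by linarith
      calc c * (H v - H u) ≤ c * (2 * (ε / (2 * c + 1))) := mul_le_mul_of_nonneg_left a3 hc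
        _ = ε * ((2 * c) / (2 * c + 1)) := by ring
        _ ≤ ε * 1 := by
          apply mul_le_mul_of_nonneg_left _ hε.le
          rw [div_le_one (by positivity)]; linarith
        _ = ε := mul_one ε
    nlinarith

section

variable {κ e a b : ℝ}

theorem H_mono {h : ℝ → ℝ} (hn : Nice h) {x y : ℝ} (hx : x ∈ Ioo (-1 : ℝ) 1)
    (hy : y ∈ Ioo (-1 : ℝ) 1) (hxy : x ≤ y) : h (kInv x) ≤ h (kInv y) :=
  hn.1 (kInv_strictMonoOn.monotoneOn hx hy hxy)

theorem H_cont {h : ℝ → ℝ} (hn : Nice h) {x : ℝ} (hx : x ∈ Ioo (-1 : ℝ) 1) :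
    ContinuousAt (fun y => h (kInv y)) x :=
  (hn.2.1.continuousAt).comp (kInv_continuousAt (abs_lt.mpr hx))

/-- the expansion inequality across intermediate discontinuities -/
theorem claimA (hκ : 0 ≤ κ) (ha : a ≤ 0) (hb : 0 ≤ b) (n : ℕ) (Dn : Finset ℝ)
    (hDn : (Dn : Set ℝ) = badSet e a b n) {h : ℝ → ℝ} (hn : Nice h) (hh : Expand κ a b h)
    {x0 y0 : ℝ} (hx0 : x0 ∈ Ioo (-1 : ℝ) 1) (hy0 : y0 ∈ Ioo (-1 : ℝ) 1) (hxy : x0 < y0)
    (hx0E : x0 ∉ Dn) (hy0E : y0 ∉ Dn) (hmono : MonotoneOn (fTilde e a b)^[n] (Icc x0 y0)) :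
    κ ^ n * (h (kInv y0) - h (kInv x0)) ≤
      h (kInv ((fTilde e a b)^[n] y0)) - h (kInv ((fTilde e a b)^[n] x0)) := by
  have hmem : ∀ x ∈ Ioo (-1 : ℝ) 1, x ∉ Dn → (fTilde e a b)^[n] x ∈ Ioo (-1 : ℝ) 1 := by
    intro x hx hxD
    have h1 := (iterate_on_interval (e := e) ha hb n {x} ordConnected_singleton
      (by simpa using hx) (by
        rw [Set.disjoint_singleton_left, ← hDn]
        simpa using hxD) n le_rfl).2.2.1
    exact h1 rfl
  refine split_ind (fun y => h (kInv y)) (κ ^ n) (pow_nonneg hκ n) x0 y0 ?_ Dn Dn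
    (fun x y => h (kInv ((fTilde e a b)^[n] y)) - h (kInv ((fTilde e a b)^[n] x))) ?_ ?_ x0 y0
    le_rfl hxy le_rfl hx0E hy0E
  · intro p hp1 hp2
    exact H_cont hn ⟨by linarith [hx0.1], by linarith [hy0.2]⟩
  · intro x y hx hxy' hy hxE hyE hno
    have hsub : Icc x y ⊆ Ioo (-1 : ℝ) 1 := fun z hz =>
      ⟨by linarith [hz.1, hx0.1], by linarith [hz.2, hy0.2]⟩
    have hdis : Disjoint (Icc x y) (badSet e a b n) := by
      rw [← hDn, Set.disjoint_left]
      intro z hz hzD
      have hzD' : z ∈ Dn := by simpa using hzD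
      rcases hz.1.eq_or_lt with h1 | h1
      · exact hxE (h1 ▸ hzD')
      · rcases hz.2.eq_or_lt with h2 | h2
        · exact hyE (h2 ▸ hzD')
        · exact hno z hzD' ⟨h1, h2⟩
    exact (iterate_on_interval (e := e) ha hb n (Icc x y) ordConnected_Icc hsub hdis n le_rfl).2.2.2
      κ h hκ hh x ⟨le_rfl, hxy'.le⟩ y ⟨hxy'.le, le_rfl⟩ hxy'
  · intro x u v y p hx hxu hup hpv hvy hy hxE huE hvE hyE _
    have hu : u ∈ Ioo (-1 : ℝ) 1 := ⟨by linarith [hx0.1], by linarith [hy0.2]⟩
    have hv : v ∈ Ioo (-1 : ℝ) 1 := ⟨by linarith [hx0.1], by linarith [hy0.2]⟩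
    have h1 : (fTilde e a b)^[n] u ≤ (fTilde e a b)^[n] v :=
      hmono ⟨by linarith, by linarith⟩ ⟨by linarith, by linarith⟩ (by linarith)
    have h2 := H_mono hn (hmem u hu huE) (hmem v hv hvE) h1
    linarith

/-- lower bound for the size of a break set -/
theorem laps_lower (hκ : 0 ≤ κ) (ha : a ≤ 0) (hb : 0 ≤ b) (n : ℕ) (Dn : Finset ℝ)
    (hDn : (Dn : Set ℝ) = badSet e a b n) {h : ℝ → ℝ} (hn : Nice h) (hh : Expand κ a b h)
    {B : ℝ} (hB : ∀ x y, h x - h y ≤ B) {s t : ℝ} (hst : h s < h t) (D' : Finset ℝ)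
    (hbr : ∀ J : Set ℝ, J.OrdConnected → J ⊆ Ioo (-1) 1 \ (D' : Set ℝ) →
      (StrictMonoOn (fTilde e a b)^[n] J ∨ StrictAntiOn (fTilde e a b)^[n] J)) :
    κ ^ n * (h t - h s) ≤ (D'.card + 1) * B := by
  classical
  have hB0 : 0 ≤ B := by have := hB 0 0; linarith
  have hlt : s < t := by
    by_contra hcon
    push Not at hcon
    exact absurd (hn.1 hcon) (not_le.mpr hst)
  have hkst := k_strictMono hlt
  -- outer points
  obtain ⟨x, hx, hxE⟩ := ((Ioo_infinite (k_mem s).1).sdiff (Dn ∪ D').finite_toSet).nonempty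
  obtain ⟨y, hy, hyE⟩ := ((Ioo_infinite (k_mem t).2).sdiff (Dn ∪ D').finite_toSet).nonempty
  have hxI : x ∈ Ioo (-1 : ℝ) 1 := ⟨hx.1, hx.2.trans (k_mem s).2⟩
  have hyI : y ∈ Ioo (-1 : ℝ) 1 := ⟨(k_mem t).1.trans hy.1, hy.2⟩
  have hxE' : x ∉ Dn ∪ D' := fun h => hxE (by simpa using h)
  have hyE' : y ∉ Dn ∪ D' := fun h => hyE (by simpa using h)
  have hxy : x < y := by linarith [hx.2, hy.1]
  have h1 : h (kInv x) ≤ h s := by
    have := H_mono hn hxI (k_mem s) hx.2.le
    rwa [kInv_k] at this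
  have h2 : h t ≤ h (kInv y) := by
    have := H_mono hn (k_mem t) hyI hy.1.le
    rwa [kInv_k] at this
  have key := split_ind (fun y => h (kInv y)) (κ ^ n) (pow_nonneg hκ n) x y
    (fun p hp1 hp2 => H_cont hn ⟨by linarith [hxI.1], by linarith [hyI.2]⟩) (Dn ∪ D') D'
    (fun x y => (((D'.filter (fun p => x < p ∧ p < y)).card : ℝ) + 1) * B)
    (by
      intro u v hxu huv hvy huE hvE hno
      have huI : u ∈ Ioo (-1 : ℝ) 1 := ⟨by linarith [hxI.1], by linarith [hyI.2]⟩
      have hvI : v ∈ Ioo (-1 : ℝ) 1 := ⟨by linarith [hxI.1], by linarith [hyI.2]⟩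
      have huD : u ∉ Dn := fun h => huE (Finset.mem_union_left _ h)
      have hvD : v ∉ Dn := fun h => hvE (Finset.mem_union_left _ h)
      have huD' : u ∉ D' := fun h => huE (Finset.mem_union_right _ h)
      have hvD' : v ∉ D' := fun h => hvE (Finset.mem_union_right _ h)
      have hfil : D'.filter (fun p => u < p ∧ p < v) = ∅ := by
        rw [Finset.filter_eq_empty_iff]
        intro p hp
        exact hno p hp
      rw [hfil]
      simp only [Finset.card_empty, Nat.cast_zero, zero_add, one_mul]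
      have hsub : Icc u v ⊆ Ioo (-1 : ℝ) 1 \ (D' : Set ℝ) := by
        intro z hz
        refine ⟨⟨by linarith [hz.1, huI.1], by linarith [hz.2, hvI.2]⟩, ?_⟩
        intro hzD
        have hzD' : z ∈ D' := by simpa using hzD
        rcases hz.1.eq_or_lt with h1 | h1
        · exact huD' (h1 ▸ hzD')
        · rcases hz.2.eq_or_lt with h2 | h2
          · exact hvD' (h2 ▸ hzD')
          · exact hno z hzD' ⟨h1, h2⟩
      rcases hbr (Icc u v) ordConnected_Icc hsub with hm | hm
      · exact (claimA hκ ha hb n Dn hDn hn hh huI hvI huv huD hvD hm.monotoneOn).trans (hB _ _)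
      · -- impossible: the iterate is increasing on small intervals
        exfalso
        obtain ⟨w, hw, hwE⟩ := ((Ioo_infinite huv).sdiff Dn.finite_toSet).nonempty
        have hwE' : w ∉ (Dn : Set ℝ) := hwE
        have hopen : Ioo u v ∩ (Dn : Set ℝ)ᶜ ∈ nhds w :=
          Filter.inter_mem (Ioo_mem_nhds hw.1 hw.2)
            (Dn.finite_toSet.isClosed.isOpen_compl.mem_nhds hwE')
        obtain ⟨δ, hδ, hball⟩ := Metric.mem_nhds_iff.mp hopen
        have hsub2 : Icc w (w + δ / 2) ⊆ Ioo u v ∩ (Dn : Set ℝ)ᶜ := by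
          intro z hz
          apply hball
          rw [Metric.mem_ball, Real.dist_eq, abs_lt]
          constructor <;> linarith [hz.1, hz.2]
        have h3 := (iterate_on_interval (e := e) ha hb n (Icc w (w + δ / 2)) ordConnected_Icc
          (fun z hz => ⟨by linarith [(hsub2 hz).1.1, huI.1], by linarith [(hsub2 hz).1.2, hvI.2]⟩)
          (by
            rw [← hDn, Set.disjoint_left]
            intro z hz
            exact (hsub2 hz).2) n le_rfl).2.1
        have m1 : w ∈ Icc w (w + δ / 2) := ⟨le_rfl, by linarith⟩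
        have m2 : w + δ / 2 ∈ Icc w (w + δ / 2) := ⟨by linarith, le_rfl⟩
        have h4 := h3 m1 m2 (by linarith)
        have h5 := hm (a := w) (b := w + δ / 2) ⟨(hsub2 m1).1.1.le, (hsub2 m1).1.2.le⟩
          ⟨(hsub2 m2).1.1.le, (hsub2 m2).1.2.le⟩ (by linarith)
        linarith)
    (by
      intro x u v y p hx hxu hup hpv hvy hy hxE huE hvE hyE hpD
      have hcard : (D'.filter (fun q => x < q ∧ q < u)).card +
          (D'.filter (fun q => v < q ∧ q < y)).card + 1 ≤
          (D'.filter (fun q => x < q ∧ q < y)).card := by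
        have hd1 : Disjoint (D'.filter (fun q => x < q ∧ q < u))
            (D'.filter (fun q => v < q ∧ q < y)) := by
          rw [Finset.disjoint_left]
          intro z hz hz'
          simp only [Finset.mem_filter] at hz hz'
          linarith [hz.2.2, hz'.2.1]
        have hd2 : Disjoint (D'.filter (fun q => x < q ∧ q < u) ∪
            D'.filter (fun q => v < q ∧ q < y)) {p} := by
          rw [Finset.disjoint_singleton_right, Finset.mem_union]
          simp only [Finset.mem_filter]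
          rintro (hz | hz)
          · linarith [hz.2.2]
          · linarith [hz.2.1]
        calc _ = (D'.filter (fun q => x < q ∧ q < u) ∪ D'.filter (fun q => v < q ∧ q < y) ∪
              {p}).card := by
              rw [Finset.card_union_of_disjoint hd2, Finset.card_union_of_disjoint hd1,
                Finset.card_singleton]
          _ ≤ _ := by
              apply Finset.card_le_card
              intro z hz
              simp only [Finset.mem_union, Finset.mem_filter, Finset.mem_singleton] at hz ⊢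
              rcases hz with (hz | hz) | rfl
              · exact ⟨hz.1, hz.2.1, by linarith [hz.2.2]⟩
              · exact ⟨hz.1, by linarith [hz.2.1], hz.2.2⟩
              · exact ⟨hpD, by linarith, by linarith⟩
      have hcard' : (((D'.filter (fun q => x < q ∧ q < u)).card : ℝ) +
          ((D'.filter (fun q => v < q ∧ q < y)).card : ℝ) + 1 ≤
          ((D'.filter (fun q => x < q ∧ q < y)).card : ℝ)) := by exact_mod_cast hcard
      rw [← add_mul]
      apply mul_le_mul_of_nonneg_right _ hB0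
      linarith)
    x y le_rfl hxy le_rfl hxE' hyE'
  calc κ ^ n * (h t - h s) ≤ κ ^ n * (h (kInv y) - h (kInv x)) :=
        mul_le_mul_of_nonneg_left (by linarith) (pow_nonneg hκ n)
    _ ≤ (((D'.filter (fun p => x < p ∧ p < y)).card : ℝ) + 1) * B := key
    _ ≤ (D'.card + 1) * B := by
        apply mul_le_mul_of_nonneg_right _ hB0
        have : (D'.filter (fun p => x < p ∧ p < y)).card ≤ D'.card := Finset.card_filter_le _ _
        have : ((D'.filter (fun p => x < p ∧ p < y)).card : ℝ) ≤ D'.card := by exact_mod_cast this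
        linarith

/-- the iterates have finitely many laps, at most `24 fib (n+2) + 1` -/
theorem hasLaps_iterate (C : Prop) (he : e = 1 ∨ e = -1) (ha : a ≤ 0) (hb : 0 ≤ b) (n : ℕ) :
    ∃ N ≤ 24 * Nat.fib (n + 2) + 1, HasLaps C (fTilde e a b)^[n] N := by
  obtain ⟨D, hD, hcard⟩ := badSet_finite_card (a := a) (b := b) he n
  refine ⟨D.card + 1, by omega, D, rfl, ?_, ?_⟩
  · rw [hD]; exact fun y hy => hy.1
  · intro J hJ hJs
    have h1 := iterate_on_interval (e := e) ha hb n J hJ (fun x hx => (hJs hx).1) (by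
      rw [← hD, Set.disjoint_left]
      exact fun x hx => (hJs hx).2) n le_rfl
    exact ⟨Or.inl h1.2.1, fun _ => h1.1⟩

theorem lapNumber_iterate_le (C : Prop) (he : e = 1 ∨ e = -1) (ha : a ≤ 0) (hb : 0 ≤ b) (n : ℕ) :
    lapNumber C (fTilde e a b)^[n] ≤ 24 * Nat.fib (n + 2) + 1 := by
  obtain ⟨N, hN, hN'⟩ := hasLaps_iterate C he ha hb n
  exact (Nat.sInf_le hN').trans hN

theorem lapNumber_iterate_spec (C : Prop) (he : e = 1 ∨ e = -1) (ha : a ≤ 0) (hb : 0 ≤ b) (n : ℕ) :
    HasLaps C (fTilde e a b)^[n] (lapNumber C (fTilde e a b)^[n]) := by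
  obtain ⟨N, _, hN'⟩ := hasLaps_iterate C he ha hb n
  exact Nat.sInf_mem (s := {N | HasLaps C (fTilde e a b)^[n] N}) ⟨N, hN'⟩

end

end Pool.Agent.H46.ABCF
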