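import Mathlib
import Pool.Agent.H46.ABCF.Lower

/-!
# Submultiplicativity of the lap number
-/

namespace Pool.Agent.H46.ABCF

open Set

theorem cut_lemma (K J : Set ℝ) (φ : ℝ → ℝ) (p : ℝ) (hφ : StrictMonoOn φ K)
    (hJ : J.OrdConnected) (hJK : J ⊆ K)
    (hleft : ∀ x ∈ J, ∀ ε > 0, ∃ z ∈ K, x - ε < z ∧ z < x)
    (hc : sSup {z | z ∈ K ∧ φ z < p} ∉ J) :
    (∀ x ∈ J, φ x < p) ∨ (∀ x ∈ J, p < φ x) := by
  have hne : ∀ x ∈ J, φ x ≠ p := by
    intro x hx hxp
    apply hc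
    have hS : sSup {z | z ∈ K ∧ φ z < p} = x := by
      apply csSup_eq_of_forall_le_of_forall_lt_exists_gt
      · obtain ⟨z, hz, _, hz2⟩ := hleft x hx 1 one_pos
        exact ⟨z, hz, by rw [← hxp]; exact hφ hz (hJK hx) hz2⟩
      · rintro z ⟨hz, hz2⟩
        by_contra hcon
        push Not at hcon
        have := hφ (hJK hx) hz hcon
        linarith
      · intro w hw
        obtain ⟨z, hz, hz1, hz2⟩ := hleft x hx (x - w) (by linarith)
        exact ⟨z, ⟨hz, by rw [← hxp]; exact hφ hz (hJK hx) hz2⟩, by linarith⟩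
    rw [hS]; exact hx
  by_contra hcon
  push Not at hcon
  obtain ⟨⟨x, hx, hx'⟩, ⟨y, hy, hy'⟩⟩ := hcon
  have hx2 : p < φ x := lt_of_le_of_ne hx' (hne x hx).symm
  have hy2 : φ y < p := lt_of_le_of_ne hy' (hne y hy)
  have hbd : ∀ z ∈ {z | z ∈ K ∧ φ z < p}, z ≤ x := by
    rintro z ⟨hz, hz2⟩
    by_contra hcon
    push Not at hcon
    have := hφ (hJK hx) hz hcon
    linarith
  have h1 : y ≤ sSup {z | z ∈ K ∧ φ z < p} := le_csSup ⟨x, hbd⟩ ⟨hJK hy, hy2⟩
  have h2 : sSup {z | z ∈ K ∧ φ z < p} ≤ x := csSup_le ⟨y, hJK hy, hy2⟩ hbd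
  exact hc (hJ.out hy hx ⟨h1, h2⟩)

/-- the number of break points to the left of `x` -/
noncomputable def rk (D : Finset ℝ) (x : ℝ) : ℕ := (D.filter (fun d => d < x)).card

theorem rk_le (D : Finset ℝ) (x : ℝ) : rk D x ≤ D.card := Finset.card_filter_le _ _

theorem rk_mono (D : Finset ℝ) {x y : ℝ} (h : x ≤ y) : rk D x ≤ rk D y := by
  apply Finset.card_le_card
  intro d hd
  simp only [Finset.mem_filter] at hd ⊢
  exact ⟨hd.1, by linarith [hd.2]⟩

theorem rk_lt (D : Finset ℝ) {x y d : ℝ} (hd : d ∈ D) (h1 : x ≤ d) (h2 : d < y) :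
    rk D x < rk D y := by
  apply Finset.card_lt_card
  rw [Finset.ssubset_iff_of_subset]
  · exact ⟨d, by simp [hd, h2], by simp [hd, h1]⟩
  · intro w hw
    simp only [Finset.mem_filter] at hw ⊢
    exact ⟨hw.1, by linarith [hw.2]⟩

/-- the `i`-th component of `(-1,1) \ D` -/
def comp (D : Finset ℝ) (i : ℕ) : Set ℝ := {x | x ∈ Ioo (-1 : ℝ) 1 \ (D : Set ℝ) ∧ rk D x = i}

theorem comp_ordConnected (D : Finset ℝ) (i : ℕ) : (comp D i).OrdConnected := by
  constructor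
  rintro x ⟨⟨hx1, hx2⟩, hx3⟩ y ⟨⟨hy1, hy2⟩, hy3⟩ z ⟨hz1, hz2⟩
  refine ⟨⟨⟨by linarith [hx1.1], by linarith [hy1.2]⟩, ?_⟩, ?_⟩
  · intro hzD
    have hzD' : z ∈ D := by simpa using hzD
    have hlt : z < y := lt_of_le_of_ne hz2 (fun h => hy2 (h ▸ hzD))
    have := rk_lt D hzD' hz1 hlt
    omega
  · have := rk_mono D hz1
    have := rk_mono D hz2
    omega

theorem comp_nhds (D : Finset ℝ) {i : ℕ} {x : ℝ} (hx : x ∈ comp D i) :
    ∃ δ > 0, Ioo (x - δ) (x + δ) ⊆ comp D i := by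
  obtain ⟨⟨hx1, hx2⟩, hx3⟩ := hx
  have hopen : Ioo (-1 : ℝ) 1 ∩ (D : Set ℝ)ᶜ ∈ nhds x :=
    Filter.inter_mem (Ioo_mem_nhds hx1.1 hx1.2) (D.finite_toSet.isClosed.isOpen_compl.mem_nhds hx2)
  obtain ⟨δ, hδ, hball⟩ := Metric.mem_nhds_iff.mp hopen
  refine ⟨δ, hδ, ?_⟩
  intro z hz
  have hb : ∀ w, x - δ < w → w < x + δ → w ∈ Ioo (-1 : ℝ) 1 ∩ (D : Set ℝ)ᶜ := by
    intro w h1 h2
    apply hball
    rw [Metric.mem_ball, Real.dist_eq, abs_lt]
    constructor <;> linarith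
  have hzz := hb z hz.1 hz.2
  refine ⟨⟨hzz.1, hzz.2⟩, ?_⟩
  rw [← hx3]
  unfold rk
  congr 1
  apply Finset.filter_congr
  intro d hd
  constructor
  · intro hdz
    by_contra hcon
    push Not at hcon
    exact (hb d (by linarith) (by linarith [hz.2])).2 (by simpa using hd)
  · intro hdx
    by_contra hcon
    push Not at hcon
    exact (hb d (by linarith [hz.1]) (by linarith)).2 (by simpa using hd)

theorem subset_comp (D : Finset ℝ) {J : Set ℝ} (hJ : J.OrdConnected)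
    (hJ1 : J ⊆ Ioo (-1 : ℝ) 1 \ (D : Set ℝ)) {x0 : ℝ} (hx0 : x0 ∈ J) : J ⊆ comp D (rk D x0) := by
  intro x hx
  refine ⟨hJ1 hx, ?_⟩
  have key : ∀ u ∈ J, ∀ v ∈ J, u ≤ v → rk D u = rk D v := by
    intro u hu v hv huv
    unfold rk
    congr 1
    apply Finset.filter_congr
    intro d hd
    constructor
    · intro h; linarith
    · intro h
      by_contra hcon
      push Not at hcon
      exact (hJ1 (hJ.out hu hv ⟨hcon, h.le⟩)).2 (by simpa using hd)
  rcases le_total x x0 with h | h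
  · exact key x hx x0 hx0 h
  · exact (key x0 hx0 x hx h).symm

open Classical in
/-- cut points -/
noncomputable def cut (D : Finset ℝ) (f : ℝ → ℝ) (i : ℕ) (p : ℝ) : ℝ :=
  if StrictMonoOn f (comp D i) then sSup {z | z ∈ comp D i ∧ f z < p}
  else sSup {z | z ∈ comp D i ∧ -f z < -p}

theorem HasLaps.comp {C : Prop} {f g : ℝ → ℝ} {M N : ℕ} (hf : HasLaps C f M) (hg : HasLaps C g N)
    (hmaps : MapsTo f (Ioo (-1) 1) (Icc (-1) 1)) : ∃ K ≤ M * N, HasLaps C (g ∘ f) K := by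
  classical
  obtain ⟨D1, hM, hD1, h1⟩ := hf
  obtain ⟨D2, hN, hD2, h2⟩ := hg
  set D : Finset ℝ := D1 ∪ ((Finset.range (D1.card + 1) ×ˢ D2).image
    (fun z => cut D1 f z.1 z.2)).filter (fun x => x ∈ Ioo (-1 : ℝ) 1) with hD
  have hcard : D.card ≤ D1.card + (D1.card + 1) * D2.card := by
    refine (Finset.card_union_le _ _).trans (add_le_add le_rfl ?_)
    refine (Finset.card_filter_le _ _).trans (Finset.card_image_le.trans ?_)
    rw [Finset.card_product, Finset.card_range]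
  refine ⟨D.card + 1, ?_, D, rfl, ?_, ?_⟩
  · rw [← hM, ← hN]
    nlinarith
  · intro x hx
    rw [hD] at hx
    simp only [Finset.coe_union, mem_union, Finset.mem_coe, Finset.mem_filter] at hx
    rcases hx with hx | hx
    · exact hD1 hx
    · exact hx.2
  · intro J hJ hJs
    rcases J.eq_empty_or_nonempty with rfl | ⟨x0, hx0⟩
    · exact ⟨Or.inl (by intro x hx; exact absurd hx (notMem_empty x)), fun _ => continuousOn_empty _⟩
    have hJ1 : J ⊆ Ioo (-1 : ℝ) 1 \ (D1 : Set ℝ) := by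
      intro x hx
      refine ⟨(hJs hx).1, fun h => (hJs hx).2 ?_⟩
      rw [hD]
      simp only [Finset.coe_union, mem_union]
      exact Or.inl h
    set i := rk D1 x0 with hi
    have hJc : J ⊆ ABCF.comp D1 i := subset_comp D1 hJ hJ1 hx0
    have hcutD : ∀ p ∈ D2, cut D1 f i p ∉ J := by
      intro p hp hc
      apply (hJs hc).2
      rw [hD]
      simp only [Finset.coe_union, mem_union, Finset.mem_coe, Finset.mem_filter,
        Finset.mem_image, Finset.mem_product, Finset.mem_range]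
      right
      exact ⟨⟨(i, p), ⟨by have := rk_le D1 x0; omega, hp⟩, rfl⟩, (hJs hc).1⟩
    have hK1 := h1 (ABCF.comp D1 i) (comp_ordConnected D1 i) (fun x hx => hx.1)
    have hleft : ∀ x ∈ J, ∀ ε > 0, ∃ z ∈ ABCF.comp D1 i, x - ε < z ∧ z < x := by
      intro x hx ε hε
      obtain ⟨δ, hδ, hsub⟩ := comp_nhds D1 (hJc hx)
      have hm : 0 < min δ ε := lt_min hδ hε
      refine ⟨x - min δ ε / 2, hsub ⟨?_, by linarith⟩, ?_, by linarith⟩
      · have := min_le_left δ ε; linarith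
      · have := min_le_right δ ε; linarith
    have hright : ∀ x ∈ J, ∃ z ∈ ABCF.comp D1 i, x < z := by
      intro x hx
      obtain ⟨δ, hδ, hsub⟩ := comp_nhds D1 (hJc hx)
      exact ⟨x + δ / 2, hsub ⟨by linarith, by linarith⟩, by linarith⟩
    -- separation from the points of D2
    have hsep : ∀ p ∈ D2, (∀ x ∈ J, f x < p) ∨ (∀ x ∈ J, p < f x) := by
      intro p hp
      by_cases hm : StrictMonoOn f (ABCF.comp D1 i)
      · apply cut_lemma (ABCF.comp D1 i) J f p hm hJ hJc hleft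
        have := hcutD p hp
        unfold cut at this
        rwa [if_pos hm] at this
      · have ha : StrictAntiOn f (ABCF.comp D1 i) := hK1.1.resolve_left hm
        have hm' : StrictMonoOn (fun x => -f x) (ABCF.comp D1 i) := fun x hx y hy hxy =>
          neg_lt_neg (ha hx hy hxy)
        have := cut_lemma (ABCF.comp D1 i) J (fun x => -f x) (-p) hm' hJ hJc hleft (by
          have := hcutD p hp
          unfold cut at this
          rwa [if_neg hm] at this)
        rcases this with h | h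
        · right; intro x hx; have := h x hx; linarith
        · left; intro x hx; have := h x hx; linarith
    -- values in the open interval
    have hval : ∀ x ∈ J, f x ∈ Ioo (-1 : ℝ) 1 := by
      intro x hx
      obtain ⟨z, hz, _, hzx⟩ := hleft x hx 1 one_pos
      obtain ⟨w, hw, hxw⟩ := hright x hx
      have hz1 := hmaps hz.1.1
      have hw1 := hmaps hw.1.1
      rcases hK1.1 with hm | hm
      · have e1 := hm hz (hJc hx) hzx
        have e2 := hm (hJc hx) hw hxw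
        exact ⟨by linarith [hz1.1], by linarith [hw1.2]⟩
      · have e1 := hm hz (hJc hx) hzx
        have e2 := hm (hJc hx) hw hxw
        exact ⟨by linarith [hw1.1], by linarith [hz1.2]⟩
    set J2 : Set ℝ := {w | ∃ u ∈ J, ∃ v ∈ J, f u ≤ w ∧ w ≤ f v} with hJ2
    have hJ2c : J2.OrdConnected := by
      constructor
      rintro z1 ⟨u1, hu1, v1, hv1, hz1, hz1'⟩ z2 ⟨u2, hu2, v2, hv2, hz2, hz2'⟩ w ⟨hw1, hw2⟩
      exact ⟨u1, hu1, v2, hv2, hz1.trans hw1, hw2.trans hz2'⟩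
    have hJ2s : J2 ⊆ Ioo (-1 : ℝ) 1 \ (D2 : Set ℝ) := by
      rintro w ⟨u, hu, v, hv, h3, h4⟩
      refine ⟨⟨lt_of_lt_of_le (hval u hu).1 h3, lt_of_le_of_lt h4 (hval v hv).2⟩, ?_⟩
      intro hwD
      rcases hsep w (by simpa using hwD) with h | h
      · have := h v hv; linarith
      · have := h u hu; linarith
    have hmapsJ : MapsTo f J J2 := fun x hx => ⟨x, hx, x, hx, le_rfl, le_rfl⟩
    obtain ⟨hg1, hg2⟩ := h2 J2 hJ2c hJ2s
    obtain ⟨hf1, hf2⟩ := h1 J hJ hJ1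
    refine ⟨?_, fun hC => (hg2 hC).comp (hf2 hC) hmapsJ⟩
    rcases hg1 with hg1 | hg1 <;> rcases hf1 with hf1 | hf1
    · exact Or.inl (hg1.comp hf1 hmapsJ)
    · exact Or.inr (hg1.comp_strictAntiOn hf1 hmapsJ)
    · exact Or.inr (hg1.comp_strictMonoOn hf1 hmapsJ)
    · exact Or.inl (hg1.comp hf1 hmapsJ)

theorem lapNumber_comp_le {C : Prop} {f g : ℝ → ℝ} (hf : HasLaps C f (lapNumber C f))
    (hg : HasLaps C g (lapNumber C g)) (hmaps : MapsTo f (Ioo (-1) 1) (Icc (-1) 1)) :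
    lapNumber C (g ∘ f) ≤ lapNumber C f * lapNumber C g := by
  obtain ⟨K, hK, hK'⟩ := hf.comp hg hmaps
  exact (Nat.sInf_le hK').trans hK

end Pool.Agent.H46.ABCF
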