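import Mathlib
import Pool.Agent.H46.ABCF.Submult

/-!
# The range of the topological entropy
-/

namespace Pool.Agent.H46.ABCF

open Set Filter Topology

theorem fib_le_pow (n : ℕ) : (Nat.fib n : ℝ) ≤ Real.goldenRatio ^ n ∧
    (Nat.fib (n + 1) : ℝ) ≤ Real.goldenRatio ^ (n + 1) := by
  induction n with
  | zero =>
    refine ⟨by simp, ?_⟩
    simp only [zero_add, Nat.fib_one, Nat.cast_one, pow_one]
    exact Real.one_lt_goldenRatio.le
  | succ n ih =>
    refine ⟨ih.2, ?_⟩
    have h1 : Nat.fib (n + 1 + 1) = Nat.fib n + Nat.fib (n + 1) := Nat.fib_add_two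
    rw [h1]
    push_cast
    have h2 : Real.goldenRatio ^ (n + 1 + 1) = Real.goldenRatio ^ n + Real.goldenRatio ^ (n + 1) := by
      have := Real.goldenRatio_sq
      calc Real.goldenRatio ^ (n + 1 + 1) = Real.goldenRatio ^ n * Real.goldenRatio ^ 2 := by ring
        _ = Real.goldenRatio ^ n * (Real.goldenRatio + 1) := by rw [this]
        _ = _ := by ring
    rw [h2]
    exact add_le_add ih.1 ih.2

theorem HasLaps.pos {C : Prop} {f : ℝ → ℝ} {N : ℕ} (h : HasLaps C f N) : 0 < N := by
  obtain ⟨D, hD, _⟩ := h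
  omega

theorem entropy_range (κ : ℝ) (hκ : κ ^ 3 - κ ^ 2 - 1 = 0) (a b : ℝ) (ha : a ≤ 0) (hb : 0 ≤ b)
    (hab : 1 ≤ b - a) (hab' : -(a * b) ≤ 1) (e : ℝ) (he : e = 1 ∨ e = -1) (C : Prop) :
    ∃ h : ℝ, Tendsto (fun n : ℕ => Real.log (lapNumber C (fTilde e a b)^[n]) / n) atTop (𝓝 h) ∧
      Real.log κ ≤ h ∧ h ≤ Real.log ((1 + √5) / 2) := by
  have h1κ := one_lt_kappa hκ
  have spec := fun n => lapNumber_iterate_spec (a := a) (b := b) C he ha hb n
  have hpos : ∀ n, 0 < lapNumber C (fTilde e a b)^[n] := fun n => (spec n).pos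
  have hmaps : ∀ n, MapsTo (fTilde e a b)^[n] (Ioo (-1) 1) (Icc (-1) 1) := by
    intro n
    exact ((fT_mapsTo (a := a) (b := b) he).iterate n).mono_left Ioo_subset_Icc_self
  set u : ℕ → ℝ := fun n => Real.log (lapNumber C (fTilde e a b)^[n]) with hu
  have hu0 : ∀ n, 0 ≤ u n := by
    intro n
    apply Real.log_nonneg
    exact_mod_cast hpos n
  have hsub : Subadditive u := by
    intro m n
    have h1 : lapNumber C (fTilde e a b)^[m + n] ≤
        lapNumber C (fTilde e a b)^[n] * lapNumber C (fTilde e a b)^[m] := by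
      rw [Function.iterate_add]
      exact lapNumber_comp_le (spec n) (spec m) (hmaps n)
    have h2 : ((lapNumber C (fTilde e a b)^[m + n] : ℕ) : ℝ) ≤
        (lapNumber C (fTilde e a b)^[n] : ℝ) * (lapNumber C (fTilde e a b)^[m] : ℝ) := by
      exact_mod_cast h1
    have p1 : (0 : ℝ) < (lapNumber C (fTilde e a b)^[m] : ℝ) := by exact_mod_cast hpos m
    have p2 : (0 : ℝ) < (lapNumber C (fTilde e a b)^[n] : ℝ) := by exact_mod_cast hpos n
    have p3 : (0 : ℝ) < (lapNumber C (fTilde e a b)^[m + n] : ℝ) := by exact_mod_cast hpos (m + n)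
    calc u (m + n) ≤ Real.log ((lapNumber C (fTilde e a b)^[n] : ℝ) *
          (lapNumber C (fTilde e a b)^[m] : ℝ)) := Real.log_le_log p3 h2
      _ = u m + u n := by rw [Real.log_mul p2.ne' p1.ne', add_comm]
  have hbdd : BddBelow (range fun n => u n / n) := by
    refine ⟨0, ?_⟩
    rintro _ ⟨n, rfl⟩
    exact div_nonneg (hu0 n) (Nat.cast_nonneg n)
  have hlim := hsub.tendsto_lim hbdd
  refine ⟨hsub.lim, hlim, ?_, ?_⟩
  · -- lower bound
    obtain ⟨h, hn, ⟨s, t, hst⟩, hh⟩ := exists_expand hκ ha hb hab hab'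
    obtain ⟨B, hB⟩ := hn.2.2
    have hBpos : 0 < B := by
      have := hB t s; linarith
    have hc0 : 0 < h t - h s := by linarith
    have key : ∀ n : ℕ, n * Real.log κ + Real.log ((h t - h s) / B) ≤ u n := by
      intro n
      obtain ⟨Dn, hDn, _⟩ := badSet_finite_card (a := a) (b := b) he n
      obtain ⟨D', hD', _, hbr⟩ := spec n
      have h1 := laps_lower (κ := κ) (e := e) (by linarith) ha hb n Dn hDn hn hh hB hst D'
        (fun J hJ hJs => (hbr J hJ hJs).1)
      have h2 : κ ^ n * ((h t - h s) / B) ≤ (lapNumber C (fTilde e a b)^[n] : ℝ) := by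
        rw [← hD']
        push_cast
        rw [← mul_div_assoc, div_le_iff₀ hBpos]
        exact h1
      have h3 : 0 < κ ^ n * ((h t - h s) / B) := by positivity
      have h4 := Real.log_le_log h3 h2
      rw [Real.log_mul (by positivity) (by positivity), Real.log_pow] at h4
      exact h4
    have hlow : Tendsto (fun n : ℕ => Real.log κ + Real.log ((h t - h s) / B) / n) atTop
        (𝓝 (Real.log κ + 0)) :=
      tendsto_const_nhds.add (tendsto_const_div_atTop_nhds_zero_nat _)
    rw [add_zero] at hlow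
    refine le_of_tendsto_of_tendsto hlow hlim ?_
    filter_upwards [eventually_gt_atTop 0] with n hn0
    have hnr : (0 : ℝ) < n := by exact_mod_cast hn0
    have := key n
    rw [le_div_iff₀ hnr, add_mul, div_mul_cancel₀ _ hnr.ne']
    linarith
  · -- upper bound
    have hφ : (1 + √5) / 2 = Real.goldenRatio := rfl
    rw [hφ]
    have hφpos := Real.goldenRatio_pos
    have hφ1 := Real.one_lt_goldenRatio
    have key : ∀ n : ℕ, u n ≤ n * Real.log Real.goldenRatio +
        (Real.log 25 + 2 * Real.log Real.goldenRatio) := by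
      intro n
      have h1 := lapNumber_iterate_le (a := a) (b := b) C he ha hb n
      have h2 : (lapNumber C (fTilde e a b)^[n] : ℝ) ≤ 24 * (Nat.fib (n + 2) : ℝ) + 1 := by
        exact_mod_cast h1
      have h3 := (fib_le_pow (n + 2)).1
      have h4 : (1 : ℝ) ≤ Real.goldenRatio ^ (n + 2) := one_le_pow₀ hφ1.le
      have h5 : (lapNumber C (fTilde e a b)^[n] : ℝ) ≤ 25 * Real.goldenRatio ^ (n + 2) := by
        linarith
      have p : (0 : ℝ) < (lapNumber C (fTilde e a b)^[n] : ℝ) := by exact_mod_cast hpos n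
      have h6 := Real.log_le_log p h5
      rw [Real.log_mul (by norm_num) (by positivity), Real.log_pow] at h6
      push_cast at h6
      calc u n ≤ _ := h6
        _ = _ := by ring
    have hup : Tendsto (fun n : ℕ => Real.log Real.goldenRatio +
        (Real.log 25 + 2 * Real.log Real.goldenRatio) / n) atTop
        (𝓝 (Real.log Real.goldenRatio + 0)) :=
      tendsto_const_nhds.add (tendsto_const_div_atTop_nhds_zero_nat _)
    rw [add_zero] at hup
    refine le_of_tendsto_of_tendsto hlim hup ?_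
    filter_upwards [eventually_gt_atTop 0] with n hn0
    have hnr : (0 : ℝ) < n := by exact_mod_cast hn0
    have := key n
    rw [div_le_iff₀ hnr, add_mul, div_mul_cancel₀ _ hnr.ne']
    linarith

end Pool.Agent.H46.ABCF
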